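import Pool.Agent.Lib.MP_64d474_lc.FV.DefsP66

set_option autoImplicit false

/-!
# Row J of FV+ : the Jacobian criterion, hard direction (characteristic 0)
-/

namespace Pool.Agent.Lib.MP_64d474_lc.FV

open MvPolynomial

universe u

namespace J95

/-- an independent family is completed by members of a transcendence basis -/
theorem complete {F P : Type u} [Field F] [CommRing P] [IsDomain P] [Algebra F P] {m r : ℕ}
    (z : Fin m → P) (hb : IsTranscendenceBasis F z) (f : Fin r → P)
    (hf : AlgebraicIndependent F f) :
    ∃ I : Finset (Fin m), I.card = r ∧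
      IsTranscendenceBasis F (Sum.elim f (fun i : {i // i ∉ I} => z i)) := by
  classical
  set s : Set P := Set.range f with hs
  set T : Set P := s ∪ Set.range z with hT
  have halg : Algebra.IsAlgebraic (Algebra.adjoin F T) P := by
    have h0 := hb.isAlgebraic
    have hsub : Set.range z ⊆ T := Set.subset_union_right
    have hle : Algebra.adjoin F (Set.range z) ≤ Algebra.adjoin F T := Algebra.adjoin_mono hsub
    let _ : Algebra (Algebra.adjoin F (Set.range z)) (Algebra.adjoin F T) :=
      (Subalgebra.inclusion hle).toAlgebra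
    have : IsScalarTower (Algebra.adjoin F (Set.range z)) (Algebra.adjoin F T)
        P := .of_algebraMap_eq fun x => rfl
    exact Algebra.IsAlgebraic.extendScalars (R := Algebra.adjoin F (Set.range z))
      (Subalgebra.inclusion_injective hle)
  obtain ⟨B, hsB, hBT, hB⟩ := exists_isTranscendenceBasis_between (R := F) s T
    Set.subset_union_left hf.to_subtype_range
  let I : Finset (Fin m) := Finset.univ.filter fun i => ¬ (z i ∈ B ∧ z i ∉ s)
  have hIc : ∀ i : {i // i ∉ I}, z i ∈ B ∧ z i ∉ s := by
    rintro ⟨i, hi⟩
    simpa [I] using hi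
  have hzinj : Function.Injective z := hb.1.injective
  let g : Fin r ⊕ {i // i ∉ I} → P := Sum.elim f (fun i => z i)
  have hginj : Function.Injective g := by
    apply Function.Injective.sumElim hf.injective
    · intro i j h
      exact Subtype.ext (hzinj h)
    · intro a i h
      exact (hIc i).2 ⟨a, h⟩
  have hgr : Set.range g = B := by
    apply Set.Subset.antisymm
    · rintro _ ⟨a | i, rfl⟩
      · exact hsB ⟨a, rfl⟩
      · exact (hIc i).1
    · intro b hbB
      by_cases hbs : b ∈ s
      · obtain ⟨a, rfl⟩ := hbs
        exact ⟨Sum.inl a, rfl⟩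
      · rcases hBT hbB with h | ⟨i, rfl⟩
        · exact absurd h hbs
        · refine ⟨Sum.inr ⟨i, ?_⟩, rfl⟩
          simp [I, hbB, hbs]
  have hgb : IsTranscendenceBasis F g := by
    let e : (Fin r ⊕ {i // i ∉ I}) ≃ B :=
      (Equiv.ofInjective g hginj).trans (Equiv.setCongr hgr)
    have hge : ((↑) : B → P) ∘ e = g := by
      funext a
      rfl
    rw [← hge]
    exact (isTranscendenceBasis_equiv e).2 hB
  have hcard := hgb.cardinalMk_eq hb
  have hcard2 : r + (m - I.card) = m := by
    have h1 : Fintype.card {i // i ∉ I} = m - I.card := by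
      rw [Fintype.card_subtype_compl]
      simp
    simp only [Cardinal.mk_fintype, Fintype.card_sum, Fintype.card_fin, h1] at hcard
    exact_mod_cast hcard
  have hIle : I.card ≤ m := by simpa using Finset.card_le_univ I
  exact ⟨I, by omega, hgb⟩

/-- a derivation which kills a subalgebra over which `x` is algebraic kills `x` -/
theorem deriv_zero {F P : Type u} [Field F] [CharZero F] [CommRing P] [IsDomain P] [Algebra F P]
    (D : Derivation F P P) (A : Subalgebra F P) (hA : ∀ a ∈ A, D a = 0) (x : P)
    (hx : IsAlgebraic A x) : D x = 0 := by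
  classical
  let D' : Derivation A P P :=
    { toFun := D
      map_add' := fun a b => map_add D a b
      map_smul' := fun a b => by
        change D ((a : P) * b) = (a : P) * D b
        rw [D.leibniz, hA a a.2, smul_zero, add_zero, smul_eq_mul]
      map_one_eq_zero' := D.map_one_eq_zero
      leibniz' := D.leibniz }
  -- polynomial of least degree
  obtain ⟨p0, hp0, hp0x⟩ := hx
  have hex : ∃ N : ℕ, ∃ p : Polynomial A, p ≠ 0 ∧ Polynomial.aeval x p = 0 ∧ p.natDegree = N :=
    ⟨_, p0, hp0, hp0x, rfl⟩
  obtain ⟨p, hp, hpx, hdeg⟩ := Nat.find_spec hex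
  have hmin : ∀ q : Polynomial A, q ≠ 0 → Polynomial.aeval x q = 0 →
      p.natDegree ≤ q.natDegree := by
    intro q hq hqx
    rw [hdeg]
    exact Nat.find_min' hex ⟨q, hq, hqx, rfl⟩
  have hinj : Function.Injective (algebraMap A P) := Subtype.val_injective
  have hpos : 0 < p.natDegree := by
    rcases Nat.eq_zero_or_pos p.natDegree with h | h
    · exfalso
      rw [Polynomial.eq_C_of_natDegree_eq_zero h, Polynomial.aeval_C] at hpx
      have h1 : p.coeff 0 = 0 := hinj (by rw [hpx, map_zero])
      apply hp
      rw [Polynomial.eq_C_of_natDegree_eq_zero h, h1, Polynomial.C_0]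
    · exact h
  have hCA : CharZero A := charZero_of_injective_algebraMap (algebraMap F A).injective
  have hder : Polynomial.derivative p ≠ 0 := by
    intro h
    have := Polynomial.derivative_eq_zero.1 h
    omega
  have hderx : Polynomial.aeval x (Polynomial.derivative p) ≠ 0 := by
    intro h
    have h1 := hmin _ hder h
    have h2 := Polynomial.natDegree_derivative_lt (p := p) hpos.ne'
    omega
  have h3 := D'.map_aeval p x
  rw [hpx, map_zero] at h3
  have h4 : Polynomial.aeval x (Polynomial.derivative p) * D x = 0 := h3.symm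
  exact (mul_eq_zero.1 h4).resolve_left hderx

theorem stJ95 : StJ.{u} := by
  intro F _ _ m r f hf
  classical
  obtain ⟨I, hI, hb⟩ := complete (X : Fin m → MvPolynomial (Fin m) F)
    (IsTranscendenceBasis.mvPolynomial (Fin m) F) f hf
  let e : Fin r ≃ I := (Finset.equivFinOfCardEq hI).symm
  refine ⟨fun a => (e a : Fin m), fun hdet => ?_⟩
  obtain ⟨v, hv0, hv⟩ := Matrix.exists_mulVec_eq_zero_iff.2 hdet
  let c : Fin m → MvPolynomial (Fin m) F := fun i => if h : i ∈ I then v (e.symm ⟨i, h⟩) else 0
  let D : Derivation F (MvPolynomial (Fin m) F) (MvPolynomial (Fin m) F) :=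
    ∑ i, c i • (pderiv i : Derivation F (MvPolynomial (Fin m) F) (MvPolynomial (Fin m) F))
  have hDsum : ∀ p, D p = ∑ i, c i * pderiv i p := by
    intro p
    have h := congrFun (map_sum Derivation.coeFnAddMonoidHom
      (fun i => c i • (pderiv i : Derivation F (MvPolynomial (Fin m) F)
        (MvPolynomial (Fin m) F))) Finset.univ) p
    rw [Finset.sum_apply] at h
    exact h
  have hDX : ∀ j, D (X j) = c j := by
    intro j
    rw [hDsum, Finset.sum_eq_single j]
    · rw [pderiv_X_self, mul_one]
    · intro b _ hb
      rw [pderiv_X_of_ne hb.symm, mul_zero]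
    · simp
  have hca : ∀ a, c (e a) = v a := by
    intro a
    have hmem : ((e a : Fin m)) ∈ I := (e a).2
    simp [c]
  have hDf : ∀ j, D (f j) = 0 := by
    intro j
    have h1 := congrFun hv j
    simp only [Matrix.mulVec, dotProduct, Matrix.of_apply, Pi.zero_apply] at h1
    rw [hDsum, ← h1]
    have h2 : ∑ i, c i * pderiv i (f j) = ∑ i ∈ I, c i * pderiv i (f j) := by
      symm
      apply Finset.sum_subset (Finset.subset_univ _)
      intro i _ hi
      simp [c, hi]
    rw [h2, ← Finset.sum_coe_sort I, ← e.sum_comp]
    apply Finset.sum_congr rfl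
    intro a _
    rw [hca, mul_comm]
  have hA : ∀ a ∈ Algebra.adjoin F (Set.range (Sum.elim f (fun i : {i // i ∉ I} =>
        (X (i : Fin m) : MvPolynomial (Fin m) F)))), D a = 0 := by
    intro a ha
    induction ha using Algebra.adjoin_induction with
    | mem x hx =>
      obtain ⟨j | i, rfl⟩ := hx
      · exact hDf j
      · change D (X (i : Fin m)) = 0
        rw [hDX]
        simp [c, i.2]
    | algebraMap r => exact D.map_algebraMap r
    | add x y _ _ hx hy => rw [map_add, hx, hy, add_zero]
    | mul x y _ _ hx hy => rw [D.leibniz, hx, hy, smul_zero, smul_zero, add_zero]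
  have halg := hb.isAlgebraic
  apply hv0
  funext a
  have h5 := deriv_zero D _ hA (X ((e a : Fin m))) (halg.isAlgebraic _)
  rw [hDX, hca] at h5
  exact h5

end J95

end Pool.Agent.Lib.MP_64d474_lc.FV
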