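import Pool.Agent.Lib.MP_64d474_lc.FV.DefsP66

/-! # Row K: the Jacobian criterion, easy direction -/

set_option autoImplicit false

namespace Pool.Agent.Lib.MP_64d474_lc.FV

open MvPolynomial Finset

universe u

variable {m r : ℕ} {F : Type u} [Field F]

theorem chain97 (f : Fin r → MvPolynomial (Fin m) F) (i : Fin m) (P : MvPolynomial (Fin r) F) :
    pderiv i (aeval f P) = ∑ j, aeval f (pderiv j P) * pderiv i (f j) := by
  induction P using MvPolynomial.induction_on with
  | C a =>
    rw [MvPolynomial.algHom_C, MvPolynomial.algebraMap_eq, pderiv_C]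
    refine (sum_eq_zero fun j _ => ?_).symm
    rw [pderiv_C, map_zero, zero_mul]
  | add p q hp hq =>
    rw [map_add, map_add, hp, hq, ← sum_add_distrib]
    refine sum_congr rfl fun j _ => ?_
    rw [map_add, map_add, add_mul]
  | mul_X p k hp =>
    rw [map_mul, aeval_X, pderiv_mul, hp, sum_mul]
    have h1 : ∀ j, aeval f (pderiv j (p * X k)) * pderiv i (f j) =
        aeval f (pderiv j p) * pderiv i (f j) * f k +
          (if j = k then aeval f p * pderiv i (f k) else 0) := by
      intro j
      rw [pderiv_mul, map_add, map_mul, map_mul, aeval_X]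
      by_cases h : j = k
      · subst h
        rw [if_pos rfl, pderiv_X_self, map_one]
        ring
      · rw [if_neg h, pderiv_X_of_ne (Ne.symm h), map_zero]
        ring
    rw [sum_congr rfl fun j _ => h1 j, sum_add_distrib, sum_ite_eq' univ k, if_pos (mem_univ k)]

theorem rowK97 : StK.{u} := by
  classical
  intro F _ _ m r f κ hdet
  rw [AlgebraicIndependent, injective_iff_map_eq_zero]
  suffices H : ∀ n : ℕ, ∀ P : MvPolynomial (Fin r) F, P.totalDegree ≤ n → aeval f P = 0 → P = 0
    from fun P hP => H _ P le_rfl hP
  intro n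
  induction n with
  | zero =>
    intro P hP h
    rw [Nat.le_zero, totalDegree_eq_zero_iff_eq_C] at hP
    rw [hP, MvPolynomial.algHom_C, MvPolynomial.algebraMap_eq] at h
    rw [hP, C_eq_zero.1 h, C_0]
  | succ n ih =>
    intro P hP h
    have hv : (fun j => aeval f (pderiv j P)) = 0 := by
      apply Matrix.eq_zero_of_vecMul_eq_zero hdet
      funext a
      show ∑ j, aeval f (pderiv j P) * pderiv (κ a) (f j) = 0
      rw [← chain97, h, map_zero]
    have hpd : ∀ j, pderiv j P = 0 := by
      intro j
      refine ih _ ?_ (congrFun hv j)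
      rw [totalDegree, Finset.sup_le_iff]
      intro d hd
      rw [mem_support_iff, coeff_pderiv] at hd
      have h1 : (d + Finsupp.single j 1) ∈ P.support :=
        mem_support_iff.2 (left_ne_zero_of_mul hd)
      have h2 := (le_totalDegree h1).trans hP
      rw [Finsupp.sum_add_index' (fun _ => rfl) (fun _ _ _ => rfl),
        Finsupp.sum_single_index rfl] at h2
      exact Nat.le_of_succ_le_succ h2
    refine ih P ?_ h
    rw [totalDegree, Finset.sup_le_iff]
    intro d hd
    by_cases h0 : d = 0
    · subst h0
      rw [Finsupp.sum_zero_index]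
      exact Nat.zero_le _
    · exfalso
      obtain ⟨j, hj⟩ := Finsupp.ne_iff.1 h0
      rw [Finsupp.zero_apply] at hj
      have h3 : d - Finsupp.single j 1 + Finsupp.single j 1 = d :=
        tsub_add_cancel_of_le (Finsupp.single_le_iff.2 (Nat.one_le_iff_ne_zero.2 hj))
      have h4 := coeff_pderiv (i := j) P (d - Finsupp.single j 1)
      rw [hpd j, coeff_zero, h3] at h4
      rw [mem_support_iff] at hd
      rcases mul_eq_zero.1 h4.symm with h5 | h5
      · exact hd h5
      · have h6 : ∀ k : ℕ, ((k : F) + 1) ≠ 0 := fun k => by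
          exact_mod_cast Nat.succ_ne_zero k
        exact h6 _ h5

end Pool.Agent.Lib.MP_64d474_lc.FV
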