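import Mathlib

/-!
Row D of MP_64d474 FV: bordered block diagonal determinants in formal power series.
-/

namespace MP64FV46

open MvPowerSeries Finset

noncomputable section

variable {F : Type*} [Field F] {σ : Type*}

/-- every monomial of `g` has support of size at most `W` -/
def MM (W : ℕ) (g : MvPowerSeries σ F) : Prop :=
  ∀ d : σ →₀ ℕ, coeff d g ≠ 0 → d.support.card ≤ W

/-- only the variables of `A` occur in `g` -/
def VV (A : Finset σ) (g : MvPowerSeries σ F) : Prop :=
  ∀ d : σ →₀ ℕ, coeff d g ≠ 0 → d.support ⊆ A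

theorem VV.mm {A : Finset σ} {g : MvPowerSeries σ F} (h : VV A g) {w : ℕ} (hA : A.card ≤ w) :
    MM w g := fun d hd => (card_le_card (h d hd)).trans hA

theorem MM.mono {a b : ℕ} (hab : a ≤ b) {g : MvPowerSeries σ F} (h : MM a g) : MM b g :=
  fun d hd => (h d hd).trans hab

theorem mm_zero (a : ℕ) : MM a (0 : MvPowerSeries σ F) := fun d hd => absurd (by simp) hd

theorem vv_zero (A : Finset σ) : VV A (0 : MvPowerSeries σ F) := fun d hd => absurd (by simp) hd

theorem mm_C (a : ℕ) (c : F) : MM a (C c : MvPowerSeries σ F) := by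
  classical
  intro d hd
  rw [coeff_C] at hd
  split_ifs at hd with h
  · simp [h]
  · exact absurd rfl hd

theorem vv_C (A : Finset σ) (c : F) : VV A (C c : MvPowerSeries σ F) := by
  classical
  intro d hd
  rw [coeff_C] at hd
  split_ifs at hd with h
  · simp [h]
  · exact absurd rfl hd

theorem mm_one (a : ℕ) : MM a (1 : MvPowerSeries σ F) := by
  rw [← map_one C]; exact mm_C a 1

theorem vv_one (A : Finset σ) : VV A (1 : MvPowerSeries σ F) := by
  rw [← map_one C]; exact vv_C A 1

theorem MM.add {a : ℕ} {f g : MvPowerSeries σ F} (hf : MM a f) (hg : MM a g) : MM a (f + g) := by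
  intro d hd
  by_cases h : coeff d f = 0
  · exact hg d (by rwa [map_add, h, zero_add] at hd)
  · exact hf d h

theorem VV.add {A : Finset σ} {f g : MvPowerSeries σ F} (hf : VV A f) (hg : VV A g) :
    VV A (f + g) := by
  intro d hd
  by_cases h : coeff d f = 0
  · exact hg d (by rwa [map_add, h, zero_add] at hd)
  · exact hf d h

theorem MM.neg {a : ℕ} {f : MvPowerSeries σ F} (hf : MM a f) : MM a (-f) := by
  intro d hd
  exact hf d (by rwa [map_neg, neg_ne_zero] at hd)

theorem VV.neg {A : Finset σ} {f : MvPowerSeries σ F} (hf : VV A f) : VV A (-f) := by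
  intro d hd
  exact hf d (by rwa [map_neg, neg_ne_zero] at hd)

theorem MM.sub {a : ℕ} {f g : MvPowerSeries σ F} (hf : MM a f) (hg : MM a g) : MM a (f - g) := by
  rw [sub_eq_add_neg]; exact hf.add hg.neg

theorem MM.sum {a : ℕ} {ι : Type*} (s : Finset ι) (f : ι → MvPowerSeries σ F)
    (h : ∀ i ∈ s, MM a (f i)) : MM a (∑ i ∈ s, f i) := by
  classical
  induction s using Finset.induction with
  | empty => simpa using mm_zero a
  | insert i s hi IH =>
    rw [sum_insert hi]
    exact (h i (mem_insert_self _ _)).add (IH fun j hj => h j (mem_insert_of_mem hj))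

theorem VV.sum {A : Finset σ} {ι : Type*} (s : Finset ι) (f : ι → MvPowerSeries σ F)
    (h : ∀ i ∈ s, VV A (f i)) : VV A (∑ i ∈ s, f i) := by
  classical
  induction s using Finset.induction with
  | empty => simpa using vv_zero A
  | insert i s hi IH =>
    rw [sum_insert hi]
    exact (h i (mem_insert_self _ _)).add (IH fun j hj => h j (mem_insert_of_mem hj))

theorem exists_of_coeff_mul {f g : MvPowerSeries σ F} {d : σ →₀ ℕ} (h : coeff d (f * g) ≠ 0) :
    ∃ p q : σ →₀ ℕ, p + q = d ∧ coeff p f ≠ 0 ∧ coeff q g ≠ 0 := by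
  classical
  rw [coeff_mul] at h
  obtain ⟨⟨p, q⟩, hp, hne⟩ := exists_ne_zero_of_sum_ne_zero h
  rw [Finset.HasAntidiagonal.mem_antidiagonal] at hp
  exact ⟨p, q, hp, left_ne_zero_of_mul hne, right_ne_zero_of_mul hne⟩

theorem MM.mul {a b : ℕ} {f g : MvPowerSeries σ F} (hf : MM a f) (hg : MM b g) :
    MM (a + b) (f * g) := by
  classical
  intro d hd
  obtain ⟨p, q, rfl, hp, hq⟩ := exists_of_coeff_mul hd
  exact (card_le_card Finsupp.support_add).trans
    ((card_union_le _ _).trans (Nat.add_le_add (hf p hp) (hg q hq)))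

theorem VV.mul {A : Finset σ} {f g : MvPowerSeries σ F} (hf : VV A f) (hg : VV A g) :
    VV A (f * g) := by
  classical
  intro d hd
  obtain ⟨p, q, rfl, hp, hq⟩ := exists_of_coeff_mul hd
  exact Finsupp.support_add.trans (union_subset (hf p hp) (hg q hq))

theorem VV.prod {A : Finset σ} {ι : Type*} (s : Finset ι) (f : ι → MvPowerSeries σ F)
    (h : ∀ i ∈ s, VV A (f i)) : VV A (∏ i ∈ s, f i) := by
  classical
  induction s using Finset.induction with
  | empty => simpa using vv_one A
  | insert i s hi IH =>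
    rw [prod_insert hi]
    exact (h i (mem_insert_self _ _)).mul (IH fun j hj => h j (mem_insert_of_mem hj))

theorem MM.prod {a : ℕ} {ι : Type*} (s : Finset ι) (f : ι → MvPowerSeries σ F)
    (h : ∀ i ∈ s, MM a (f i)) : MM (s.card * a) (∏ i ∈ s, f i) := by
  classical
  induction s using Finset.induction with
  | empty => simpa using mm_one 0
  | insert i s hi IH =>
    rw [prod_insert hi, card_insert_of_notMem hi, Nat.succ_mul, Nat.add_comm]
    exact (h i (mem_insert_self _ _)).mul (IH fun j hj => h j (mem_insert_of_mem hj))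

theorem VV.det {A : Finset σ} {n : Type*} [Fintype n] [DecidableEq n]
    (M : Matrix n n (MvPowerSeries σ F)) (h : ∀ i j, VV A (M i j)) : VV A M.det := by
  rw [Matrix.det_apply]
  refine VV.sum _ _ fun s _ => ?_
  have h1 : VV A (∏ i, M (s i) i) := VV.prod _ _ fun i _ => h _ _
  rcases Int.units_eq_one_or (Equiv.Perm.sign s) with h2 | h2
  · rw [h2]; simpa using h1
  · rw [h2]; simpa using h1.neg

theorem MM.det {a : ℕ} {n : Type*} [Fintype n] [DecidableEq n]
    (M : Matrix n n (MvPowerSeries σ F)) (h : ∀ i j, MM a (M i j)) :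
    MM (Fintype.card n * a) M.det := by
  rw [Matrix.det_apply]
  refine MM.sum _ _ fun s _ => ?_
  have h1 : MM (Fintype.card n * a) (∏ i, M (s i) i) := MM.prod _ _ fun i _ => h _ _
  rcases Int.units_eq_one_or (Equiv.Perm.sign s) with h2 | h2
  · rw [h2]; simpa using h1
  · rw [h2]; simpa using h1.neg

/-- inverse of a series in the variables `A` -/
theorem VV.inv {A : Finset σ} {g : MvPowerSeries σ F} (hg : VV A g)
    (h0 : constantCoeff g ≠ 0) : VV A g⁻¹ := by
  classical
  -- the part of the inverse in the variables `A`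
  let h : MvPowerSeries σ F := fun d => if d.support ⊆ A then coeff d g⁻¹ else 0
  have hcoeff : ∀ d, coeff d h = if d.support ⊆ A then coeff d g⁻¹ else 0 := fun d => rfl
  have hh : VV A h := by
    intro d hd
    rw [hcoeff] at hd
    by_contra hc
    rw [if_neg hc] at hd
    exact hd rfl
  have key : g * h = 1 := by
    ext d
    by_cases hd : d.support ⊆ A
    · rw [← MvPowerSeries.mul_inv_cancel g h0, coeff_mul, coeff_mul]
      refine sum_congr rfl fun p hp => ?_
      rw [Finset.HasAntidiagonal.mem_antidiagonal] at hp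
      congr 1
      rw [hcoeff, if_pos]
      refine subset_trans ?_ hd
      intro i hi
      rw [Finsupp.mem_support_iff] at hi ⊢
      rw [← hp, Finsupp.add_apply]
      omega
    · have h1 : coeff d (g * h) = 0 := by
        by_contra hc
        exact hd ((hg.mul hh) d hc)
      have h2 : d ≠ 0 := by
        rintro rfl
        exact hd (by simp)
      rw [h1, coeff_one, if_neg h2]
  have : g⁻¹ = h := by
    rw [MvPowerSeries.inv_eq_iff_mul_eq_one h0, mul_comm]
    exact key
  rw [this]
  exact hh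

theorem VV.adjugate {A : Finset σ} {n : Type*} [Fintype n] [DecidableEq n]
    (M : Matrix n n (MvPowerSeries σ F)) (h : ∀ i j, VV A (M i j)) (i j : n) :
    VV A (M.adjugate i j) := by
  rw [Matrix.adjugate_apply]
  refine VV.det _ fun p q => ?_
  rw [Matrix.updateRow_apply]
  split_ifs
  · by_cases hq : q = i
    · subst hq; simpa using vv_one A
    · rw [Pi.single_eq_of_ne hq]; exact vv_zero A
  · exact h p q

theorem VV.pderiv {A : Finset σ} {g : MvPowerSeries σ F} (h : VV A g) (i : σ) :
    VV A (MvPowerSeries.pderiv F i g) := by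
  classical
  intro d hd
  rw [coeff_pderiv] at hd
  have := h _ (left_ne_zero_of_mul hd)
  refine subset_trans ?_ this
  intro j hj
  rw [Finsupp.mem_support_iff] at hj ⊢
  rw [Finsupp.add_apply]
  omega

theorem vv_coe {A : Finset σ} {p : MvPolynomial σ F} (h : p.vars ⊆ A) :
    VV A (p : MvPowerSeries σ F) := by
  classical
  intro d hd
  rw [MvPolynomial.coeff_coe] at hd
  intro i hi
  refine h ?_
  rw [MvPolynomial.mem_vars_iff_mem_support]
  exact ⟨d, MvPolynomial.mem_support_iff.2 hd, hi⟩

theorem mm_coe {W : ℕ} {p : MvPolynomial σ F} (h : p.totalDegree ≤ W) :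
    MM W (p : MvPowerSeries σ F) := by
  classical
  intro d hd
  rw [MvPolynomial.coeff_coe] at hd
  have h1 := MvPolynomial.le_totalDegree (MvPolynomial.mem_support_iff.2 hd)
  refine le_trans ?_ (h1.trans h)
  rw [Finsupp.sum, card_eq_sum_ones]
  refine sum_le_sum fun i hi => ?_
  have := Finsupp.mem_support_iff.1 hi
  omega

section Bordered

variable {κ : Type*} [Fintype κ] [DecidableEq κ] {n : κ → Type*} [∀ i, Fintype (n i)]
  [∀ i, DecidableEq (n i)] {c : Type*} [Fintype c] [DecidableEq c]

theorem det_blockDiag' {R : Type*} [CommRing R] {N : ℕ} {n : Fin N → Type*}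
    [∀ i, Fintype (n i)] [∀ i, DecidableEq (n i)] (M : ∀ i, Matrix (n i) (n i) R) :
    (Matrix.blockDiagonal' M).det = ∏ i, (M i).det := by
  rw [(Matrix.blockTriangular_blockDiagonal' M).det_fintype]
  refine prod_congr rfl fun k _ => ?_
  let e : n k ≃ { a : (Σ i, n i) // a.1 = k } :=
    { toFun := fun x => ⟨⟨k, x⟩, rfl⟩
      invFun := fun a => a.2 ▸ a.1.2
      left_inv := fun x => rfl
      right_inv := by
        rintro ⟨⟨i, x⟩, h⟩
        dsimp only at h
        subst h
        rfl }
  rw [← Matrix.det_submatrix_equiv_self e]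
  congr 1
  ext x y
  simp [e, Matrix.toSquareBlock, Matrix.toSquareBlockProp]

/-- Schur complement of a bordered block diagonal matrix -/
theorem bordered {A : κ → Finset σ} {w : ℕ} (hA : ∀ i, (A i).card ≤ w)
    (B : ∀ i, Matrix (n i) (n i) (MvPowerSeries σ F)) (hB : ∀ i p q, VV (A i) (B i p q))
    (hdet : ∀ i, constantCoeff (B i).det ≠ 0)
    (U : Matrix (Σ i, n i) c (MvPowerSeries σ F)) (V : Matrix c (Σ i, n i) (MvPowerSeries σ F))
    (W : Matrix c c (MvPowerSeries σ F)) (hU : ∀ p q, MM 1 (U p q)) (hV : ∀ p q, MM 1 (V p q))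
    (hW : ∀ p q, MM 1 (W p q)) :
    ∃ Φ : MvPowerSeries σ F, MM (Fintype.card c * (w + 2)) Φ ∧
      (Matrix.fromBlocks (Matrix.blockDiagonal' B) U V W).det =
        (Matrix.blockDiagonal' B).det * Φ := by
  classical
  -- the inverse
  let Bi : ∀ i, Matrix (n i) (n i) (MvPowerSeries σ F) := fun i => ((B i).det)⁻¹ • (B i).adjugate
  have hBi : ∀ i, B i * Bi i = 1 := by
    intro i
    show B i * (((B i).det)⁻¹ • (B i).adjugate) = 1
    rw [Matrix.mul_smul, Matrix.mul_adjugate, smul_smul,
      MvPowerSeries.inv_mul_cancel _ (hdet i), one_smul]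
  have hBiV : ∀ i p q, VV (A i) (Bi i p q) := by
    intro i p q
    show VV (A i) (((B i).det)⁻¹ * (B i).adjugate p q)
    exact ((VV.det _ (hB i)).inv (hdet i)).mul (VV.adjugate _ (hB i) p q)
  have h1 : Matrix.blockDiagonal' B * Matrix.blockDiagonal' Bi = 1 := by
    rw [← Matrix.blockDiagonal'_mul]
    have : (fun k => B k * Bi k) = 1 := by
      funext k; exact hBi k
    rw [this, Matrix.blockDiagonal'_one]
  let _inst : Invertible (Matrix.blockDiagonal' B) :=
    ⟨Matrix.blockDiagonal' Bi, mul_eq_one_comm.1 h1, h1⟩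
  have h2 : ⅟(Matrix.blockDiagonal' B) = Matrix.blockDiagonal' Bi := invOf_eq_right_inv h1
  refine ⟨(W - V * ⅟(Matrix.blockDiagonal' B) * U).det, ?_, Matrix.det_fromBlocks₁₁ _ _ _ _⟩
  rw [h2]
  refine MM.det _ fun a b => ?_
  rw [Matrix.sub_apply]
  refine (MM.mono (by omega) (hW a b)).sub ?_
  rw [Matrix.mul_apply]
  refine MM.sum _ _ fun p _ => ?_
  have h3 : MM (w + 1) ((V * Matrix.blockDiagonal' Bi) a p) := by
    rw [Matrix.mul_apply]
    refine MM.sum _ _ fun q _ => ?_
    have h4 : MM w (Matrix.blockDiagonal' Bi q p) := by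
      obtain ⟨i, x⟩ := q
      obtain ⟨j, y⟩ := p
      by_cases hij : i = j
      · subst hij
        rw [Matrix.blockDiagonal'_apply_eq]
        exact (hBiV i x y).mm (hA i)
      · rw [Matrix.blockDiagonal'_apply_ne _ _ _ hij]
        exact mm_zero w
    have := (hV a q).mul h4
    rwa [Nat.add_comm] at this
  exact h3.mul (hU p b)

end Bordered

/-- logarithmic derivative of a product of units in few variables each -/
theorem logDeriv_prod {ι : Type*} (s : Finset ι) {w : ℕ} (A : ι → Finset σ)
    (hA : ∀ j ∈ s, (A j).card ≤ w) (P : ι → MvPowerSeries σ F) (hP : ∀ j ∈ s, VV (A j) (P j))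
    (h0 : ∀ j ∈ s, constantCoeff (P j) ≠ 0) (i : σ) :
    MM w (MvPowerSeries.pderiv F i (∏ j ∈ s, P j) * (∏ j ∈ s, P j)⁻¹) := by
  classical
  induction s using Finset.induction with
  | empty => simpa using mm_zero w
  | insert a s ha IH =>
    have IH' := IH (fun j hj => hA j (mem_insert_of_mem hj))
      (fun j hj => hP j (mem_insert_of_mem hj)) (fun j hj => h0 j (mem_insert_of_mem hj))
    have ha0 := h0 a (mem_insert_self _ _)
    have hs0 : constantCoeff (∏ j ∈ s, P j) ≠ 0 := by
      rw [map_prod]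
      exact prod_ne_zero_iff.2 fun j hj => h0 j (mem_insert_of_mem hj)
    rw [prod_insert ha, Derivation.leibniz, MvPowerSeries.mul_inv_rev, smul_eq_mul, smul_eq_mul]
    have e1 : P a * (P a)⁻¹ = 1 := MvPowerSeries.mul_inv_cancel _ ha0
    have e2 : (∏ j ∈ s, P j) * (∏ j ∈ s, P j)⁻¹ = 1 := MvPowerSeries.mul_inv_cancel _ hs0
    have e3 : (P a * (MvPowerSeries.pderiv F i) (∏ j ∈ s, P j) +
        (∏ j ∈ s, P j) * (MvPowerSeries.pderiv F i) (P a)) * ((∏ j ∈ s, P j)⁻¹ * (P a)⁻¹) =
        (MvPowerSeries.pderiv F i) (∏ j ∈ s, P j) * (∏ j ∈ s, P j)⁻¹ * (P a * (P a)⁻¹) +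
        ((∏ j ∈ s, P j) * (∏ j ∈ s, P j)⁻¹) * ((MvPowerSeries.pderiv F i) (P a) * (P a)⁻¹) := by
      ring
    rw [e3, e1, e2, mul_one, one_mul]
    refine IH'.add ?_
    exact VV.mm (((hP a (mem_insert_self _ _)).pderiv i).mul
      ((hP a (mem_insert_self _ _)).inv ha0)) (hA a (mem_insert_self _ _))

end

end MP64FV46
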