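import Pool.Agent.Lib.MP_64d474_lc.FV.Defs66
import Pool.Agent.Lib.MP_64d474_lc.FV.Bord46

set_option autoImplicit false

/-!
Row D of MP_64d474 FV.
-/

namespace Pool.Agent.Lib.MP_64d474_lc.FV

open MvPolynomial Finset

universe u

theorem stD46 : StD.{u} := by
  classical
  intro F _ _ m c w A hFew h0
  obtain ⟨hB, hU, hV, hW⟩ := hFew
  choose hdet S hS hSB using hB
  let φ : MvPolynomial (Fin m) F →+* MvPowerSeries (Fin m) F := coeToMvPowerSeries.ringHom
  have hφ : ∀ p : MvPolynomial (Fin m) F, φ p = (p : MvPowerSeries (Fin m) F) := fun p => rfl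
  have hc : ∀ p : MvPolynomial (Fin m) F, MvPowerSeries.constantCoeff
      (p : MvPowerSeries (Fin m) F) = constantCoeff p := by
    intro p
    rw [← MvPowerSeries.coeff_zero_eq_constantCoeff_apply, MvPolynomial.coeff_coe,
      MvPolynomial.constantCoeff_eq]
  have hdetφ : ∀ i, ((A.B i).map φ).det = ((A.B i).det : MvPowerSeries (Fin m) F) := by
    intro i
    rw [← hφ, RingHom.map_det]
    rfl
  have hVV : ∀ i p q, MP64FV46.VV (S i) (((A.B i).map φ) p q) := by
    intro i p q
    exact MP64FV46.vv_coe (hSB i p q)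
  have hdet0 : ∀ i, MvPowerSeries.constantCoeff ((A.B i).map φ).det ≠ 0 := by
    intro i
    rw [hdetφ, hc]
    exact h0 i
  have hVd : ∀ i, MP64FV46.VV (S i) ((A.B i).map φ).det := fun i => MP64FV46.VV.det _ (hVV i)
  have hprod : ((∏ j, (A.B j).det : MvPolynomial (Fin m) F) : MvPowerSeries (Fin m) F) =
      ∏ j, ((A.B j).map φ).det := by
    rw [← hφ, map_prod]
    exact prod_congr rfl fun i _ => by rw [hdetφ, hφ]
  have hunit : MvPowerSeries.constantCoeff (∏ j, ((A.B j).map φ).det) ≠ 0 := by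
    rw [map_prod]
    exact prod_ne_zero_iff.2 fun j _ => hdet0 j
  refine ⟨?_, ?_, ?_⟩
  · rw [map_prod]
    exact prod_ne_zero_iff.2 fun j _ => h0 j
  · intro i
    have h1 := MP64FV46.logDeriv_prod (F := F) (w := w) univ S (fun j _ => hS j)
      (fun j => ((A.B j).map φ).det) (fun j _ => hVd j) (fun j _ => hdet0 j) i
    rw [← hprod, MvPowerSeries.pderiv_coe] at h1
    exact h1
  · obtain ⟨Φ, hΦ, hΦ2⟩ := MP64FV46.bordered (F := F) (w := w) hS (fun i => (A.B i).map φ) hVV hdet0
      (A.U.map φ) (A.V.map φ) (A.W.map φ)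
      (fun p q => MP64FV46.mm_coe (hU p q)) (fun p q => MP64FV46.mm_coe (hV p q))
      (fun p q => MP64FV46.mm_coe (hW p q))
    have h2 : ((A.mat.det : MvPolynomial (Fin m) F) : MvPowerSeries (Fin m) F) =
        (∏ j, ((A.B j).map φ).det) * Φ := by
      rw [← MP64FV46.det_blockDiag', ← hΦ2, ← hφ, RingHom.map_det]
      congr 1
      show A.mat.map φ = _
      rw [Bordered.mat, Matrix.fromBlocks_map, Matrix.blockDiagonal'_map _ _ (map_zero φ)]
    rw [h2, hprod, mul_right_comm, MvPowerSeries.mul_inv_cancel _ hunit, one_mul]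
    have h3 : MP64FV46.MM (c * (w + 2)) Φ := by
      have := hΦ
      rwa [Fintype.card_fin] at this
    exact h3

end Pool.Agent.Lib.MP_64d474_lc.FV
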