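import Pool.Agent.Lib.MP_64d474_lc.FV.Defs66

/-! # Row T: sums of few functions with logarithmic derivatives of small support -/

set_option autoImplicit false

namespace Pool.Agent.Lib.MP_64d474_lc.FV

open MvPowerSeries Finset

universe u

variable {m : ℕ} {F : Type u} [Field F]

theorem MM.mono {a b : ℕ} (h : a ≤ b) {g : MvPowerSeries (Fin m) F} (hg : MM a g) : MM b g :=
  fun d hd => (hg d hd).trans h

theorem MM.zero (a : ℕ) : MM a (0 : MvPowerSeries (Fin m) F) := fun d hd => by
  simp at hd

theorem MM.add {a : ℕ} {f g : MvPowerSeries (Fin m) F} (hf : MM a f) (hg : MM a g) :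
    MM a (f + g) := by
  intro d hd
  by_cases h : coeff d f = 0
  · refine hg d fun h' => hd ?_
    rw [map_add, h, h', add_zero]
  · exact hf d h

theorem MM.neg {a : ℕ} {f : MvPowerSeries (Fin m) F} (hf : MM a f) : MM a (-f) := by
  intro d hd
  refine hf d fun h => hd ?_
  rw [map_neg, h, neg_zero]

theorem MM.sum {a : ℕ} {ι : Type*} (s : Finset ι) {f : ι → MvPowerSeries (Fin m) F}
    (h : ∀ i ∈ s, MM a (f i)) : MM a (∑ i ∈ s, f i) := by
  classical
  induction s using Finset.induction_on with
  | empty => exact MM.zero a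
  | insert i s hi ih =>
    rw [sum_insert hi]
    exact (h i (mem_insert_self i s)).add (ih fun j hj => h j (mem_insert_of_mem hj))

theorem MM.C (c : F) : MM 0 (MvPowerSeries.C c : MvPowerSeries (Fin m) F) := by
  classical
  intro d hd
  rw [coeff_C] at hd
  by_cases h : d = 0
  · subst h
    simp
  · rw [if_neg h] at hd
    exact absurd rfl hd

theorem MM.one : MM 0 (1 : MvPowerSeries (Fin m) F) := by
  have := MM.C (m := m) (1 : F)
  rwa [map_one] at this

theorem MM.mul {a b : ℕ} {f g : MvPowerSeries (Fin m) F} (hf : MM a f) (hg : MM b g) :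
    MM (a + b) (f * g) := by
  classical
  intro d hd
  rw [coeff_mul] at hd
  obtain ⟨p, hp, hne⟩ := exists_ne_zero_of_sum_ne_zero hd
  rw [HasAntidiagonal.mem_antidiagonal] at hp
  have h1 := hf p.1 (left_ne_zero_of_mul hne)
  have h2 := hg p.2 (right_ne_zero_of_mul hne)
  rw [← hp]
  calc (p.1 + p.2).support.card ≤ (p.1.support ∪ p.2.support).card :=
        card_le_card Finsupp.support_add
    _ ≤ _ := (card_union_le _ _).trans (add_le_add h1 h2)

theorem MM.prod {ι : Type*} (s : Finset ι) {a : ι → ℕ} {f : ι → MvPowerSeries (Fin m) F}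
    (h : ∀ i ∈ s, MM (a i) (f i)) : MM (∑ i ∈ s, a i) (∏ i ∈ s, f i) := by
  classical
  induction s using Finset.induction_on with
  | empty => exact MM.one
  | insert i s hi ih =>
    rw [sum_insert hi, prod_insert hi]
    exact (h i (mem_insert_self i s)).mul (ih fun j hj => h j (mem_insert_of_mem hj))

theorem MM.pderiv {a : ℕ} {f : MvPowerSeries (Fin m) F} (hf : MM a f) (i : Fin m) :
    MM a (MvPowerSeries.pderiv F i f) := by
  classical
  intro d hd
  rw [coeff_pderiv] at hd
  refine le_trans (card_le_card ?_) (hf _ (left_ne_zero_of_mul hd))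
  intro j hj
  rw [Finsupp.mem_support_iff] at hj ⊢
  rw [Finsupp.add_apply]
  omega

theorem II.mono {a b : ℕ} (h : a ≤ b) {g : MvPowerSeries (Fin m) F} (hg : II b g) : II a g :=
  fun d hd => hg d (hd.trans h)

theorem II.add {a : ℕ} {f g : MvPowerSeries (Fin m) F} (hf : II a f) (hg : II a g) :
    II a (f + g) := fun d hd => by rw [map_add, hf d hd, hg d hd, add_zero]

theorem II.zero (a : ℕ) : II a (0 : MvPowerSeries (Fin m) F) := fun d _ => by simp

theorem II.sum {a : ℕ} {ι : Type*} (s : Finset ι) {f : ι → MvPowerSeries (Fin m) F}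
    (h : ∀ i ∈ s, II a (f i)) : II a (∑ i ∈ s, f i) := by
  classical
  induction s using Finset.induction_on with
  | empty => exact II.zero a
  | insert i s hi ih =>
    rw [sum_insert hi]
    exact (h i (mem_insert_self i s)).add (ih fun j hj => h j (mem_insert_of_mem hj))

theorem II.mul_right {a : ℕ} {f : MvPowerSeries (Fin m) F} (hf : II a f)
    (g : MvPowerSeries (Fin m) F) : II a (f * g) := by
  classical
  intro d hd
  rw [coeff_mul]
  refine sum_eq_zero fun p hp => ?_
  rw [HasAntidiagonal.mem_antidiagonal] at hp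
  rw [hf p.1, zero_mul]
  refine le_trans (card_le_card ?_) hd
  intro j hj
  rw [Finsupp.mem_support_iff] at hj ⊢
  rw [← hp, Finsupp.add_apply]
  omega

theorem II.mul_left {a : ℕ} {f : MvPowerSeries (Fin m) F} (hf : II a f)
    (g : MvPowerSeries (Fin m) F) : II a (g * f) := by
  rw [mul_comm]
  exact hf.mul_right g

theorem II.pderiv {a : ℕ} {f : MvPowerSeries (Fin m) F} (hf : II (a + 1) f) (i : Fin m) :
    II a (MvPowerSeries.pderiv F i f) := by
  classical
  intro d hd
  rw [coeff_pderiv, hf, zero_mul]
  calc (d + Finsupp.single i 1).support.card ≤ (d.support ∪ (Finsupp.single i 1).support).card :=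
        card_le_card Finsupp.support_add
    _ ≤ d.support.card + (Finsupp.single i 1 : Fin m →₀ ℕ).support.card := card_union_le _ _
    _ ≤ a + 1 := by
        refine add_le_add hd ?_
        calc (Finsupp.single i 1 : Fin m →₀ ℕ).support.card ≤ ({i} : Finset (Fin m)).card :=
              card_le_card Finsupp.support_single_subset
          _ = 1 := card_singleton i

theorem MM.eq_zero {a : ℕ} {f : MvPowerSeries (Fin m) F} (hf : MM a f) (hg : II a f) : f = 0 := by
  ext d
  by_contra h
  exact h (hg d (hf d h))

theorem pd_add (l : List (Fin m)) (g h : MvPolynomial (Fin m) F) :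
    pd l (g + h) = pd l g + pd l h := by
  induction l with
  | nil => rfl
  | cons i l ih =>
    show MvPolynomial.pderiv i (pd l (g + h)) = MvPolynomial.pderiv i (pd l g) +
      MvPolynomial.pderiv i (pd l h)
    rw [ih, map_add]

theorem pd_zero (l : List (Fin m)) : pd l (0 : MvPolynomial (Fin m) F) = 0 := by
  induction l with
  | nil => rfl
  | cons i l ih =>
    show MvPolynomial.pderiv i (pd l 0) = 0
    rw [ih, map_zero]

theorem pd_sum (l : List (Fin m)) {ι : Type*} (s : Finset ι) (f : ι → MvPolynomial (Fin m) F) :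
    pd l (∑ i ∈ s, f i) = ∑ i ∈ s, pd l (f i) := by
  classical
  induction s using Finset.induction_on with
  | empty => exact pd_zero l
  | insert i s hi ih => rw [sum_insert hi, sum_insert hi, pd_add, ih]

theorem II.word (l : List (Fin m)) : ∀ {a : ℕ} {g : MvPolynomial (Fin m) F},
    II (a + l.length) (g : MvPowerSeries (Fin m) F) → II a (pd l g : MvPowerSeries (Fin m) F) := by
  induction l with
  | nil => exact fun h => h
  | cons i l ih =>
    intro a g h
    have h1 : II (a + 1) (pd l g : MvPowerSeries (Fin m) F) := by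
      refine ih ?_
      rw [List.length_cons] at h
      have e : a + 1 + l.length = a + (l.length + 1) := by omega
      rwa [e]
    have h2 := h1.pderiv i
    rwa [pderiv_coe] at h2

theorem MM.word {w W0 : ℕ} {f T : MvPolynomial (Fin m) F}
    (hlog : ∀ i, MM w (MvPowerSeries.pderiv F i (T : MvPowerSeries (Fin m) F) *
      (T : MvPowerSeries (Fin m) F)⁻¹))
    (hf : MM W0 ((f : MvPowerSeries (Fin m) F) * (T : MvPowerSeries (Fin m) F)⁻¹))
    (l : List (Fin m)) :
    MM (W0 + w * l.length) ((pd l f : MvPowerSeries (Fin m) F) *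
      (T : MvPowerSeries (Fin m) F)⁻¹) := by
  induction l with
  | nil => exact hf
  | cons i l ih =>
    have h1 : ((pd (i :: l) f : MvPolynomial (Fin m) F) : MvPowerSeries (Fin m) F) *
        (T : MvPowerSeries (Fin m) F)⁻¹ =
        MvPowerSeries.pderiv F i ((pd l f : MvPowerSeries (Fin m) F) *
          (T : MvPowerSeries (Fin m) F)⁻¹) +
        ((pd l f : MvPowerSeries (Fin m) F) * (T : MvPowerSeries (Fin m) F)⁻¹) *
          (MvPowerSeries.pderiv F i (T : MvPowerSeries (Fin m) F) *
            (T : MvPowerSeries (Fin m) F)⁻¹) := by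
      rw [Derivation.leibniz, pderiv_inv', pderiv_coe (pd l f)]
      show (MvPolynomial.pderiv i (pd l f) : MvPowerSeries (Fin m) F) *
        (T : MvPowerSeries (Fin m) F)⁻¹ = _
      simp only [smul_eq_mul]
      ring
    rw [h1, List.length_cons]
    have e : W0 + w * (l.length + 1) = (W0 + w * l.length) + w := by ring
    rw [e]
    exact ((ih.pderiv i).mono (Nat.le_add_right _ _)).add (ih.mul (hlog i))

theorem supp (hW : StW.{u}) [CharZero F] (w W0 : ℕ) : ∀ (k : ℕ) (f T : Fin k → MvPolynomial (Fin m) F),
    (∀ a, MvPolynomial.constantCoeff (T a) ≠ 0) →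
    (∀ a i, MM w (MvPowerSeries.pderiv F i (T a : MvPowerSeries (Fin m) F) *
      (T a : MvPowerSeries (Fin m) F)⁻¹)) →
    (∀ a, MM W0 ((f a : MvPowerSeries (Fin m) F) * (T a : MvPowerSeries (Fin m) F)⁻¹)) →
    II (w * (k * (k - 1) / 2) + k * W0 + (k - 1))
      ((∑ a, f a : MvPolynomial (Fin m) F) : MvPowerSeries (Fin m) F) →
    ∑ a, f a = 0 := by
  intro k
  induction k with
  | zero => intro f T _ _ _ _; simp
  | succ k ih =>
    intro f T hT hlog hf hI
    have hk2 : (k + 1) * (k + 1 - 1) / 2 = ∑ j : Fin (k + 1), (j : ℕ) := by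
      rw [Fin.sum_univ_eq_sum_range (fun i => i) (k + 1), Finset.sum_range_id]
    by_cases hli : LinearIndependent F f
    · exfalso
      obtain ⟨θ, hθ, hdet⟩ := hW F m (k + 1) f hli
      obtain ⟨q, hq⟩ : ∃ q, q = w * ((k + 1) * (k + 1 - 1) / 2) + (k + 1) * W0 := ⟨_, rfl⟩
      rw [← hq, Nat.add_sub_cancel] at hI
      obtain ⟨A, hA⟩ : ∃ A : Matrix (Fin (k + 1)) (Fin (k + 1)) (MvPowerSeries (Fin m) F),
          A = Matrix.of fun j a => ((pd (θ j) (f a) : MvPolynomial (Fin m) F) :
            MvPowerSeries (Fin m) F) := ⟨_, rfl⟩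
      have hAd : A.det = ((Matrix.det (Matrix.of fun j a => pd (θ j) (f a)) :
          MvPolynomial (Fin m) F) : MvPowerSeries (Fin m) F) := by
        have := RingHom.map_det (MvPolynomial.coeToMvPowerSeries.ringHom (R := F) (σ := Fin m))
          (Matrix.of fun j a => pd (θ j) (f a))
        rw [MvPolynomial.coeToMvPowerSeries.ringHom_apply] at this
        rw [this, hA]
        rfl
      have hA0 : A.det ≠ 0 := by
        rw [hAd]
        intro h
        exact hdet (MvPolynomial.coe_injective _ _ (by rw [h, MvPolynomial.coe_zero]))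
      have hII : II q A.det := by
        have h1 := Matrix.det_updateCol_sum A 0 (fun _ => 1)
        rw [one_smul] at h1
        rw [← h1, Matrix.det_succ_column_zero]
        refine II.sum _ fun j _ => ?_
        refine II.mul_right (II.mul_left ?_ _) _
        rw [Matrix.updateCol_self]
        have h2 : ∑ a, (1 : MvPowerSeries (Fin m) F) • A j a =
            ((pd (θ j) (∑ a, f a) : MvPolynomial (Fin m) F) : MvPowerSeries (Fin m) F) := by
          have h3 := map_sum (MvPolynomial.coeToMvPowerSeries.ringHom (R := F) (σ := Fin m))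
            (fun a => pd (θ j) (f a)) univ
          simp only [MvPolynomial.coeToMvPowerSeries.ringHom_apply] at h3
          rw [pd_sum, h3, hA]
          exact sum_congr rfl fun a _ => one_smul _ _
        rw [h2]
        refine II.word _ (hI.mono ?_)
        have := hθ j
        have := j.2
        omega
      obtain ⟨c, hc⟩ : ∃ c : Fin (k + 1) → MvPowerSeries (Fin m) F,
          c = fun a => (T a : MvPowerSeries (Fin m) F)⁻¹ := ⟨_, rfl⟩
      have hD := Matrix.det_mul_row c A
      have hMM : MM q (Matrix.det (Matrix.of fun i j => c j * A i j)) := by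
        rw [Matrix.det_apply]
        refine MM.sum _ fun σ _ => ?_
        have h1 : MM q (∏ i, (Matrix.of fun i j => c j * A i j) (σ i) i) := by
          have h2 : ∀ i ∈ (univ : Finset (Fin (k + 1))), MM (W0 + w * ((σ i : Fin (k + 1)) : ℕ))
              ((Matrix.of fun i j => c j * A i j) (σ i) i) := by
            intro i _
            have h3 := (MM.word (hlog i) (hf i) (θ (σ i))).mono
              (Nat.add_le_add_left (Nat.mul_le_mul_left w (hθ (σ i))) W0)
            have h5 : (Matrix.of fun i j => c j * A i j) (σ i) i =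
                ((pd (θ (σ i)) (f i) : MvPolynomial (Fin m) F) : MvPowerSeries (Fin m) F) *
                  (T i : MvPowerSeries (Fin m) F)⁻¹ := by
              rw [Matrix.of_apply, hc, hA]
              exact mul_comm _ _
            rw [h5]
            exact h3
          have h3 := MM.prod univ h2
          have h4 : ∑ i : Fin (k + 1), (W0 + w * ((σ i : Fin (k + 1)) : ℕ)) = q := by
            rw [sum_add_distrib, ← mul_sum, Equiv.sum_comp σ (fun j : Fin (k + 1) => (j : ℕ)),
              ← hk2, hq, sum_const, card_univ, Fintype.card_fin, smul_eq_mul, add_comm]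
          rwa [h4] at h3
        rcases Int.units_eq_one_or (Equiv.Perm.sign σ) with h | h
        · rw [h, one_smul]
          exact h1
        · rw [h, Units.neg_smul, one_smul]
          exact h1.neg
      have hz : Matrix.det (Matrix.of fun i j => c j * A i j) = 0 := by
        refine hMM.eq_zero ?_
        rw [hD]
        exact hII.mul_left _
      rw [hD] at hz
      have hprod : ∏ a, c a ≠ 0 := by
        refine prod_ne_zero_iff.2 fun a _ => ?_
        rw [hc]
        intro h
        rw [MvPowerSeries.inv_eq_zero] at h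
        apply hT a
        have h5 := MvPolynomial.coeff_coe (T a) 0
        rw [MvPowerSeries.coeff_zero_eq_constantCoeff, h] at h5
        rw [MvPolynomial.constantCoeff_eq]
        exact h5.symm
      exact hA0 ((mul_eq_zero.1 hz).resolve_left hprod)
    · obtain ⟨g, hg, a0, ha0⟩ := Fintype.not_linearIndependent_iff.1 hli
      have hs : ∑ a, f a = ∑ j : Fin k, (MvPolynomial.C (1 - g (a0.succAbove j) / g a0) *
          f (a0.succAbove j)) := by
        rw [Fin.sum_univ_succAbove _ a0] at hg ⊢
        have h1 : f a0 = -∑ j : Fin k, MvPolynomial.C (g (a0.succAbove j) / g a0) *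
            f (a0.succAbove j) := by
          have h2 : f a0 = (g a0)⁻¹ • (g a0 • f a0) := by
            rw [smul_smul, inv_mul_cancel₀ ha0, one_smul]
          rw [h2, eq_neg_of_add_eq_zero_left hg, smul_neg, smul_sum]
          congr 1
          refine sum_congr rfl fun j _ => ?_
          rw [smul_smul, MvPolynomial.smul_eq_C_mul, mul_comm (g a0)⁻¹, ← div_eq_mul_inv]
        rw [h1, neg_add_eq_sub, ← sum_sub_distrib]
        refine sum_congr rfl fun j _ => ?_
        rw [map_sub, map_one]
        ring
      rw [hs]
      refine ih _ (fun j => T (a0.succAbove j)) (fun j => hT _) (fun j => hlog _) (fun j => ?_) ?_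
      · rw [MvPolynomial.coe_mul, MvPolynomial.coe_C, mul_assoc]
        have := (MM.C (m := m) (1 - g (a0.succAbove j) / g a0)).mul (hf (a0.succAbove j))
        rwa [zero_add] at this
      · rw [← hs]
        refine hI.mono ?_
        have h1 : k * (k - 1) / 2 ≤ (k + 1) * (k + 1 - 1) / 2 := by
          apply Nat.div_le_div_right
          exact Nat.mul_le_mul (Nat.le_succ k) (by omega)
        have h2 := Nat.mul_le_mul_left w h1
        have h3 : k * W0 ≤ (k + 1) * W0 := Nat.mul_le_mul_right W0 (Nat.le_succ k)
        omega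

theorem row97 (hW : StW.{u}) : StT.{u} := by
  intro F _ _ m k w W₀ f T hT hlog hf hI
  refine supp hW w W₀ k f T hT (fun a i => ?_) hf hI
  rw [pderiv_coe]
  exact hlog a i

end Pool.Agent.Lib.MP_64d474_lc.FV
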