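import Mathlib
import Pool.Agent.Lib.MP_64d474_lc.S3.Defs69
import Pool.Agent.Lib.MP_64d474_lc.S3.Hit35

set_option autoImplicit false

/-!
# Sums of determinants of bordered block diagonal matrices with few variables in every block:
definitions and the statements of the rows
-/

namespace Pool.Agent.Lib.MP_64d474_lc.FV

open MvPolynomial Finset

universe u

/-- every monomial of `g` has at most `W` variables -/
def MM {F : Type u} [Field F] {m : ℕ} (W : ℕ) (g : MvPowerSeries (Fin m) F) : Prop :=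
  ∀ d, MvPowerSeries.coeff d g ≠ 0 → d.support.card ≤ W

/-- every monomial of `g` has more than `r` variables -/
def II {F : Type u} [Field F] {m : ℕ} (r : ℕ) (g : MvPowerSeries (Fin m) F) : Prop :=
  ∀ d, d.support.card ≤ r → MvPowerSeries.coeff d g = 0

/-- the iterated partial derivative along a word -/
noncomputable def pd {F : Type u} [Field F] {m : ℕ} (l : List (Fin m))
    (f : MvPolynomial (Fin m) F) : MvPolynomial (Fin m) F :=
  l.foldr (fun i g => MvPolynomial.pderiv i g) f

/-- the shift `f(x) ↦ f(x + u)` -/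
noncomputable def shift {F : Type u} [Field F] {m : ℕ} (u : Fin m → F) :
    MvPolynomial (Fin m) F →ₐ[F] MvPolynomial (Fin m) F :=
  aeval fun i => X i + C (u i)

/-- the parts of a block diagonal matrix with a border of width `c` -/
structure Bordered (F : Type u) [Field F] (m c : ℕ) where
  p : ℕ
  sz : Fin p → ℕ
  B : ∀ i, Matrix (Fin (sz i)) (Fin (sz i)) (MvPolynomial (Fin m) F)
  U : Matrix ((i : Fin p) × Fin (sz i)) (Fin c) (MvPolynomial (Fin m) F)
  V : Matrix (Fin c) ((i : Fin p) × Fin (sz i)) (MvPolynomial (Fin m) F)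
  W : Matrix (Fin c) (Fin c) (MvPolynomial (Fin m) F)

/-- the matrix -/
noncomputable def Bordered.mat {F : Type u} [Field F] {m c : ℕ} (A : Bordered F m c) :
    Matrix (((i : Fin A.p) × Fin (A.sz i)) ⊕ Fin c) (((i : Fin A.p) × Fin (A.sz i)) ⊕ Fin c)
      (MvPolynomial (Fin m) F) :=
  Matrix.fromBlocks (Matrix.blockDiagonal' A.B) A.U A.V A.W

/-- all entries of `M` are polynomials in the variables of `S` -/
def InVars {F : Type u} [Field F] {m : ℕ} {n : Type} (S : Finset (Fin m))
    (M : Matrix n n (MvPolynomial (Fin m) F)) : Prop :=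
  ∀ p q, (M p q).vars ⊆ S

/-- the blocks are nonsingular and have at most `w` variables each, the border is affine -/
def Bordered.Few {F : Type u} [Field F] {m c : ℕ} (w : ℕ) (A : Bordered F m c) : Prop :=
  (∀ i, (A.B i).det ≠ 0 ∧ ∃ S : Finset (Fin m), S.card ≤ w ∧ InVars S (A.B i)) ∧
  (∀ p q, (A.U p q).totalDegree ≤ 1) ∧ (∀ p q, (A.V p q).totalDegree ≤ 1) ∧
    ∀ p q, (A.W p q).totalDegree ≤ 1

/-- the number of variables of a monomial that has to occur -/
def rr (w c k : ℕ) : ℕ := w * (k * (k - 1) / 2) + k * (c * (w + 2)) + (k - 1)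

/-- Row W: the generalised Wronskian. -/
def StW : Prop :=
  ∀ (F : Type u) [Field F] [CharZero F] (m k : ℕ) (f : Fin k → MvPolynomial (Fin m) F),
    LinearIndependent F f →
    ∃ θ : Fin k → List (Fin m), (∀ j, (θ j).length ≤ (j : ℕ)) ∧
      Matrix.det (Matrix.of fun j a => pd (θ j) (f a)) ≠ 0

/-- Row T: the support theorem. -/
def StT : Prop :=
  ∀ (F : Type u) [Field F] [CharZero F] (m k w W₀ : ℕ) (f T : Fin k → MvPolynomial (Fin m) F),
    (∀ a, constantCoeff (T a) ≠ 0) →
    (∀ a i, MM w ((MvPolynomial.pderiv i (T a) : MvPowerSeries (Fin m) F) *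
      ((T a : MvPolynomial (Fin m) F) : MvPowerSeries (Fin m) F)⁻¹)) →
    (∀ a, MM W₀ (((f a : MvPolynomial (Fin m) F) : MvPowerSeries (Fin m) F) *
      ((T a : MvPolynomial (Fin m) F) : MvPowerSeries (Fin m) F)⁻¹)) →
    II (w * (k * (k - 1) / 2) + k * W₀ + (k - 1))
      ((∑ a, f a : MvPolynomial (Fin m) F) : MvPowerSeries (Fin m) F) →
    ∑ a, f a = 0

/-- Row D: a bordered matrix whose blocks are nonsingular at the origin. -/
def StD : Prop :=
  ∀ (F : Type u) [Field F] [CharZero F] (m c w : ℕ) (A : Bordered F m c), A.Few w →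
    (∀ i, constantCoeff (A.B i).det ≠ 0) →
    constantCoeff (∏ i, (A.B i).det) ≠ 0 ∧
    (∀ i, MM w ((MvPolynomial.pderiv i (∏ j, (A.B j).det) : MvPowerSeries (Fin m) F) *
      ((∏ j, (A.B j).det : MvPolynomial (Fin m) F) : MvPowerSeries (Fin m) F)⁻¹)) ∧
    MM (c * (w + 2)) (((A.mat.det : MvPolynomial (Fin m) F) : MvPowerSeries (Fin m) F) *
      ((∏ j, (A.B j).det : MvPolynomial (Fin m) F) : MvPowerSeries (Fin m) F)⁻¹)

/-- Row L: the generator and few variables.  A product of polynomials in at most `w` variables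
each does not vanish at some `u` such that `f (u + x)` has no monomial with at most `r`
variables. -/
def StL : Prop :=
  ∀ (F : Type u) [Field F] [CharZero F] (m w r : ℕ) (f : MvPolynomial (Fin m) F)
    (Q : Multiset (MvPolynomial (Fin m) F)), (∀ P ∈ Q, P ≠ 0 ∧ P.vars.card ≤ w) →
    S3.gen F m (w + r) f = 0 →
    ∃ u : Fin m → F, (∀ P ∈ Q, eval u P ≠ 0) ∧
      II r ((shift u f : MvPolynomial (Fin m) F) : MvPowerSeries (Fin m) F)

/-- Row M: the theorem for the generator. -/
def StM : Prop :=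
  ∀ (F : Type u) [Field F] [CharZero F] (m w c k : ℕ) (A : Fin k → Bordered F m c)
    (lam : Fin k → F), (∀ a, (A a).Few w) →
    S3.gen F m (w + rr w c k) (∑ a, C (lam a) * (A a).mat.det) = 0 →
    ∑ a, C (lam a) * (A a).mat.det = 0

/-- The final statement. -/
def StFV : Prop :=
  ∀ (F : Type u) [Field F] [CharZero F] (m n w c k : ℕ) (A : Fin k → Bordered F m c)
    (lam : Fin k → F), (∀ a, (A a).Few w) →
    (∑ a, C (lam a) * (A a).mat.det).totalDegree ≤ n →
    ∑ a, C (lam a) * (A a).mat.det ≠ 0 →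
    ∃ h ∈ S3.grid m n (w + rr w c k),
      eval (fun i => ((h i : ℤ) : F)) (∑ a, C (lam a) * (A a).mat.det) ≠ 0

/-- The final statement follows from row M and the grid. -/
theorem stFV (h : StM.{u}) : StFV.{u} := by
  intro F _ _ m n w c k A lam hA hn hf
  by_contra hc
  push Not at hc
  exact hf (h F m w c k A lam hA (S3.gen_eq_zero_of_grid _ hn hc))

end Pool.Agent.Lib.MP_64d474_lc.FV
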