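import Pool.Agent.Lib.MP_64d474_lc.Wronskian
import Pool.Agent.Lib.MP_64d474_lc.FV.Defs66

/-!
# Row W: the generalised Wronskian

Polynomials in several variables over a field of characteristic zero which are linearly
independent have a nonzero generalised Wronskian whose `j`-th row uses a word of at most `j`
partial derivatives.
-/

set_option autoImplicit false

open MvPolynomial

namespace Pool.Agent.Lib.MP_64d474_lc.FV

universe u

variable {F : Type u} [Field F] {m k : ℕ}

theorem pd_nil (g : MvPolynomial (Fin m) F) : pd [] g = g := rfl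

theorem pd_cons (i : Fin m) (l : List (Fin m)) (g : MvPolynomial (Fin m) F) :
    pd (i :: l) g = pderiv i (pd l g) := rfl

/-- `d` is orthogonal to all rows of words of length at most `j`. -/
def Orth21 (f : Fin k → MvPolynomial (Fin m) F) (j : ℕ) (d : Fin k → MvPolynomial (Fin m) F) :
    Prop := ∀ θ : List (Fin m), θ.length ≤ j → ∑ a, d a * pd θ (f a) = 0

theorem orth_zero21 [CharZero F] (f : Fin k → MvPolynomial (Fin m) F)
    (hf : LinearIndependent F f) (j : ℕ)
    (hstep : ∀ d, Orth21 f j d → Orth21 f (j + 1) d) (s : ℕ) :
    ∀ d : Fin k → MvPolynomial (Fin m) F, (Function.support d).ncard ≤ s → Orth21 f j d →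
      d = 0 := by
  classical
  induction s with
  | zero =>
    intro d hs _
    have h1 : (Function.support d).ncard = 0 := Nat.le_zero.mp hs
    rw [Set.ncard_eq_zero (Set.toFinite _)] at h1
    exact Function.support_eq_empty_iff.mp h1
  | succ s ih =>
    intro d hs hd
    by_contra hne
    obtain ⟨a0, ha0⟩ : ∃ a0, d a0 ≠ 0 := by
      by_contra hcon
      push Not at hcon
      exact hne (funext hcon)
    have hd1 := hstep d hd
    have hprop : ∀ (l : Fin m) (a : Fin k), d a0 * pderiv l (d a) - d a * pderiv l (d a0) = 0 := by
      intro l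
      have h2 : (fun a => d a0 * pderiv l (d a) - d a * pderiv l (d a0)) = 0 := by
        apply ih
        · have hlt : (Function.support fun a =>
              d a0 * pderiv l (d a) - d a * pderiv l (d a0)).ncard <
              (Function.support d).ncard := by
            apply Set.ncard_lt_ncard _ (Set.toFinite _)
            refine (Set.ssubset_iff_of_subset ?_).mpr ⟨a0, ha0, ?_⟩
            · intro a ha hda
              have hda' : d a = 0 := hda
              apply ha
              simp [hda']
            · intro h
              apply h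
              ring
          omega
        · intro θ hθ
          have e1 : ∑ a, d a * pd θ (f a) = 0 := hd θ hθ
          have e2 : ∑ a, d a * pd (l :: θ) (f a) = 0 := hd1 (l :: θ) (by simpa using hθ)
          have e3 : ∑ a, (pderiv l (d a) * pd θ (f a) + d a * pd (l :: θ) (f a)) = 0 := by
            have h := congrArg (pderiv l) e1
            rw [map_sum, map_zero] at h
            rw [← h]
            refine Finset.sum_congr rfl fun a _ => ?_
            rw [pd_cons, Derivation.leibniz, smul_eq_mul, smul_eq_mul]
            ring
          rw [Finset.sum_add_distrib, e2, add_zero] at e3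
          have e4 : ∑ a, (d a0 * pderiv l (d a) - d a * pderiv l (d a0)) * pd θ (f a) =
              d a0 * ∑ a, pderiv l (d a) * pd θ (f a) -
                pderiv l (d a0) * ∑ a, d a * pd θ (f a) := by
            rw [Finset.mul_sum, Finset.mul_sum, ← Finset.sum_sub_distrib]
            refine Finset.sum_congr rfl fun a _ => ?_
            ring
          rw [e4, e3, e1]
          ring
      exact fun a => congrFun h2 a
    have hlam : ∀ a, ∃ l : F, d a = C l * d a0 := by
      intro a
      refine mv_wronskian (d a) (d a0) ha0 fun l => ?_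
      have := hprop l a
      linear_combination -this
    choose lam hlam using hlam
    have h3 : ∑ a, d a * pd [] (f a) = 0 := hd [] (Nat.zero_le _)
    have h4 : d a0 * ∑ a, lam a • f a = 0 := by
      rw [← h3, Finset.mul_sum]
      refine Finset.sum_congr rfl fun a _ => ?_
      rw [pd_nil, hlam a, MvPolynomial.smul_eq_C_mul]
      ring
    have h5 : ∑ a, lam a • f a = 0 := (mul_eq_zero.mp h4).resolve_left ha0
    have h6 := Fintype.linearIndependent_iff.mp hf lam h5 a0
    have h7 := hlam a0
    rw [h6, map_zero, zero_mul] at h7
    exact ha0 h7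

/-- the row of a word over the field of fractions -/
noncomputable def row21 (f : Fin k → MvPolynomial (Fin m) F) (θ : List (Fin m)) :
    Fin k → FractionRing (MvPolynomial (Fin m) F) :=
  fun a => algebraMap (MvPolynomial (Fin m) F) (FractionRing (MvPolynomial (Fin m) F)) (pd θ (f a))

/-- the span of all rows of words of length at most `j` -/
noncomputable def V21 (f : Fin k → MvPolynomial (Fin m) F) (j : ℕ) :
    Submodule (FractionRing (MvPolynomial (Fin m) F))
      (Fin k → FractionRing (MvPolynomial (Fin m) F)) :=
  Submodule.span _ {r | ∃ θ : List (Fin m), θ.length ≤ j ∧ r = row21 f θ}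

theorem row_mem21 (f : Fin k → MvPolynomial (Fin m) F) {j : ℕ} {θ : List (Fin m)}
    (h : θ.length ≤ j) : row21 f θ ∈ V21 f j :=
  Submodule.subset_span ⟨θ, h, rfl⟩

theorem orth_of_mem21 (f : Fin k → MvPolynomial (Fin m) F) (j : ℕ)
    (d : Fin k → MvPolynomial (Fin m) F) (hd : Orth21 f j d)
    (r : Fin k → FractionRing (MvPolynomial (Fin m) F)) (hr : r ∈ V21 f j) :
    ∑ a, algebraMap (MvPolynomial (Fin m) F) (FractionRing (MvPolynomial (Fin m) F)) (d a) *
      r a = 0 := by
  unfold V21 at hr
  induction hr using Submodule.span_induction with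
  | mem x hx =>
    obtain ⟨θ, hθ, rfl⟩ := hx
    have h := congrArg (algebraMap (MvPolynomial (Fin m) F)
      (FractionRing (MvPolynomial (Fin m) F))) (hd θ hθ)
    rw [map_sum, map_zero] at h
    rw [← h]
    refine Finset.sum_congr rfl fun a _ => ?_
    rw [map_mul]
    rfl
  | zero => simp
  | add x y _ _ hx hy =>
    simp only [Pi.add_apply, mul_add, Finset.sum_add_distrib, hx, hy, add_zero]
  | smul c x _ hx =>
    simp only [Pi.smul_apply, smul_eq_mul]
    rw [← mul_zero c, ← hx, Finset.mul_sum]
    refine Finset.sum_congr rfl fun a _ => ?_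
    ring

theorem V_top21 [CharZero F] (f : Fin k → MvPolynomial (Fin m) F)
    (hf : LinearIndependent F f) (j : ℕ) (h : V21 f (j + 1) ≤ V21 f j) : V21 f j = ⊤ := by
  classical
  have hstep : ∀ d, Orth21 f j d → Orth21 f (j + 1) d := by
    intro d hd θ hθ
    have h1 := orth_of_mem21 f j d hd (row21 f θ) (h (row_mem21 f hθ))
    apply IsFractionRing.injective (MvPolynomial (Fin m) F)
      (FractionRing (MvPolynomial (Fin m) F))
    rw [map_sum, map_zero, ← h1]
    refine Finset.sum_congr rfl fun a _ => ?_
    rw [map_mul]
    rfl
  by_contra hne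
  obtain ⟨φ, hφ0, hφ⟩ := Submodule.exists_le_ker_of_lt_top (V21 f j) (lt_top_iff_ne_top.mpr hne)
  obtain ⟨b, hb⟩ := IsLocalization.exist_integer_multiples_of_finite
    (nonZeroDivisors (MvPolynomial (Fin m) F))
    (fun a : Fin k => φ (Pi.single a (1 : FractionRing (MvPolynomial (Fin m) F))))
  choose d hd using hb
  have hφe : ∀ r : Fin k → FractionRing (MvPolynomial (Fin m) F),
      φ r = ∑ a, r a * φ (Pi.single a 1) := by
    intro r
    conv_lhs => rw [show r = ∑ a, r a • (Pi.single a (1 : FractionRing (MvPolynomial (Fin m) F)) :
      Fin k → FractionRing (MvPolynomial (Fin m) F)) from by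
        funext i
        simp [Finset.sum_apply, Pi.single_apply]]
    rw [map_sum]
    refine Finset.sum_congr rfl fun a _ => ?_
    rw [map_smul, smul_eq_mul]
  have hd0 : Orth21 f j d := by
    intro θ hθ
    apply IsFractionRing.injective (MvPolynomial (Fin m) F)
      (FractionRing (MvPolynomial (Fin m) F))
    have h1 : φ (row21 f θ) = 0 := hφ (row_mem21 f hθ)
    rw [hφe] at h1
    rw [map_sum, map_zero, ← mul_zero (algebraMap (MvPolynomial (Fin m) F)
      (FractionRing (MvPolynomial (Fin m) F)) b), ← h1, Finset.mul_sum]
    refine Finset.sum_congr rfl fun a _ => ?_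
    rw [map_mul, hd a, Algebra.smul_def]
    unfold row21
    ring
  have hdz := orth_zero21 f hf j hstep _ d le_rfl hd0
  apply hφ0
  ext a
  have h2 := hd a
  have h3 : d a = 0 := congrFun hdz a
  rw [h3, map_zero, Algebra.smul_def] at h2
  have h4 : algebraMap (MvPolynomial (Fin m) F)
      (FractionRing (MvPolynomial (Fin m) F)) b ≠ 0 := by
    rw [Ne, IsFractionRing.to_map_eq_zero_iff]
    exact nonZeroDivisors.ne_zero b.2
  simpa using (mul_eq_zero.mp h2.symm).resolve_left h4

theorem greedy21 [CharZero F] (f : Fin k → MvPolynomial (Fin m) F)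
    (hf : LinearIndependent F f) (n : ℕ) (hn : n ≤ k) :
    ∃ θ : Fin n → List (Fin m), (∀ j, (θ j).length ≤ j) ∧
      LinearIndependent (FractionRing (MvPolynomial (Fin m) F)) fun j => row21 f (θ j) := by
  induction n with
  | zero => exact ⟨fun j => j.elim0, fun j => j.elim0, linearIndependent_empty_type⟩
  | succ n ih =>
    obtain ⟨θ, hθ, hli⟩ := ih (by omega)
    obtain ⟨η, hη, hηn⟩ : ∃ η : List (Fin m), η.length ≤ n ∧
        row21 f η ∉ Submodule.span (FractionRing (MvPolynomial (Fin m) F))
          (Set.range fun j => row21 f (θ j)) := by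
      by_contra hcon
      push Not at hcon
      have hle : V21 f n ≤ Submodule.span (FractionRing (MvPolynomial (Fin m) F))
          (Set.range fun j => row21 f (θ j)) := by
        apply Submodule.span_le.mpr
        rintro _ ⟨η, hη, rfl⟩
        exact hcon η hη
      have htop : Submodule.span (FractionRing (MvPolynomial (Fin m) F))
          (Set.range fun j => row21 f (θ j)) = ⊤ := by
        rcases n with _ | n
        · exfalso
          have h1 : row21 f [] ∈ Submodule.span (FractionRing (MvPolynomial (Fin m) F))
              (Set.range fun j => row21 f (θ j)) := hcon [] le_rfl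
          rw [Set.range_eq_empty, Submodule.span_empty, Submodule.mem_bot] at h1
          have h2 := congrFun h1 ⟨0, by omega⟩
          have h3 : f ⟨0, by omega⟩ = 0 := by
            apply IsFractionRing.injective (MvPolynomial (Fin m) F)
              (FractionRing (MvPolynomial (Fin m) F))
            rw [map_zero]
            exact h2
          exact hf.ne_zero _ h3
        · have h1 : Submodule.span (FractionRing (MvPolynomial (Fin m) F))
              (Set.range fun j => row21 f (θ j)) ≤ V21 f n := by
            apply Submodule.span_le.mpr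
            rintro _ ⟨j, rfl⟩
            exact row_mem21 f ((hθ j).trans (by omega))
          have h2 := V_top21 f hf n (hle.trans h1)
          rw [eq_top_iff, ← h2]
          refine le_trans ?_ hle
          apply Submodule.span_mono
          rintro _ ⟨η, hη, rfl⟩
          exact ⟨η, by omega, rfl⟩
      have hfr := finrank_span_eq_card hli
      rw [htop, finrank_top, Module.finrank_fin_fun, Fintype.card_fin] at hfr
      omega
    refine ⟨Fin.snoc θ η, ?_, ?_⟩
    · intro j
      refine Fin.lastCases ?_ (fun j => ?_) j
      · simpa using hη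
      · simpa using hθ j
    · have h1 : (fun j => row21 f ((Fin.snoc θ η : Fin (n + 1) → List (Fin m)) j)) =
          Fin.snoc (fun j => row21 f (θ j)) (row21 f η) := by
        funext j
        refine Fin.lastCases ?_ (fun j => ?_) j
        · simp
        · simp
      rw [h1]
      exact linearIndependent_finSnoc.mpr ⟨hli, hηn⟩

theorem wronskian [CharZero F] (f : Fin k → MvPolynomial (Fin m) F)
    (hf : LinearIndependent F f) :
    ∃ θ : Fin k → List (Fin m), (∀ j, (θ j).length ≤ j) ∧
      Matrix.det (Matrix.of fun j a => pd (θ j) (f a)) ≠ 0 := by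
  obtain ⟨θ, hθ, hli⟩ := greedy21 f hf k le_rfl
  refine ⟨θ, hθ, fun h0 => ?_⟩
  have h1 : LinearIndependent (FractionRing (MvPolynomial (Fin m) F))
      (Matrix.of fun j a => row21 f (θ j) a).row := hli
  rw [Matrix.linearIndependent_rows_iff_isUnit, Matrix.isUnit_iff_isUnit_det] at h1
  apply h1.ne_zero
  have h2 := congrArg (algebraMap (MvPolynomial (Fin m) F)
    (FractionRing (MvPolynomial (Fin m) F))) h0
  rw [map_zero, RingHom.map_det] at h2
  exact h2

/-- Row W. -/
theorem rowW21 : StW.{u} := fun _ _ _ _ _ f hf => wronskian f hf

end Pool.Agent.Lib.MP_64d474_lc.FV
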