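import Pool.Agent.Lib.MP_64d474_lc.FV.M29
import Pool.Agent.Lib.MP_64d474_lc.FV.D46
import Pool.Agent.Lib.MP_64d474_lc.FV.T97
import Pool.Agent.Lib.MP_64d474_lc.FV.Wron21

set_option autoImplicit false

/-!
# Sums of bordered block diagonal determinants, few variables in every block
-/

namespace Pool.Agent.Lib.MP_64d474_lc.FV

universe u

theorem stM_all : StM.{u} := stM (row97 rowW21) stD46

/-- The final statement. -/
theorem stFV_all : StFV.{u} := stFV stM_all

end Pool.Agent.Lib.MP_64d474_lc.FV
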