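import Mathlib
import Pool.Agent.Lib.MP_64d474_lc.S3.Hit35b
import Pool.Agent.Lib.MP_64d474_lc.FV.Defs66

set_option autoImplicit false

/-!
# Row L: the generator and polynomials in few variables
-/

namespace Pool.Agent.Lib.MP_64d474_lc.FV

open MvPolynomial Finset

universe u

namespace L29

variable {F : Type u} [Field F] {m : ℕ}

/-- A nonzero polynomial does not vanish at some point supported on its variables. -/
theorem exists_point [Infinite F] {P : MvPolynomial (Fin m) F} (hP : P ≠ 0) :
    ∃ x : Fin m → F, (∀ k, k ∉ P.vars → x k = 0) ∧ eval x P ≠ 0 := by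
  classical
  obtain ⟨x, hx⟩ : ∃ x : Fin m → F, eval x P ≠ 0 := by
    by_contra h
    exact hP (MvPolynomial.funext fun x => by
      rw [map_zero]; by_contra hx; exact h ⟨x, hx⟩)
  refine ⟨fun k => if k ∈ P.vars then x k else 0, fun k hk => by simp [hk], ?_⟩
  have : eval (fun k => if k ∈ P.vars then x k else 0) P = eval x P := by
    apply eval₂Hom_congr' rfl _ rfl
    intro i hi _
    simp [hi]
  rwa [this]

theorem gen_ne_zero [CharZero F] {s : ℕ} {P : MvPolynomial (Fin m) F}
    (hP : P ≠ 0) (hd : P.vars.card ≤ s) : S3.gen F m s P ≠ 0 := by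
  obtain ⟨x, hx, hne⟩ := exists_point hP
  obtain ⟨y, z, hyz⟩ := S3.exists_seeds P.vars hd x hx
  intro h0
  apply hne
  have h1 := S3.eval_gen (s := s) P (Sum.elim y z)
  rw [h0, map_zero] at h1
  simp only [Sum.elim_inl, Sum.elim_inr] at h1
  rw [← hyz]
  exact h1.symm

theorem gen_prod_ne_zero [CharZero F] {s : ℕ} (A : Multiset (MvPolynomial (Fin m) F))
    (h : ∀ P ∈ A, P ≠ 0 ∧ P.vars.card ≤ s) : S3.gen F m s A.prod ≠ 0 := by
  rw [map_multiset_prod, Ne, Multiset.prod_eq_zero_iff, Multiset.mem_map]
  rintro ⟨P, hP, h0⟩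
  exact gen_ne_zero (h P hP).1 (h P hP).2 h0

/-- The coefficients of the restriction to a coordinate subspace. -/
theorem coeff_restrict (P : MvPolynomial (Fin m) F) (d : Fin m →₀ ℕ) :
    coeff d (aeval (fun k => if k ∈ d.support then (X k : MvPolynomial (Fin m) F) else 0) P) =
      coeff d P := by
  classical
  rw [aeval_def, eval₂_eq', coeff_sum]
  have hone : ∀ e : Fin m →₀ ℕ, e.support ⊆ d.support →
      (∏ i : Fin m, (if i ∈ d.support then (X i : MvPolynomial (Fin m) F) else 0) ^ e i) =
        monomial e 1 := by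
    intro e hs
    rw [monomial_eq, C_1, one_mul, Finsupp.prod_fintype _ _ (by simp)]
    refine Finset.prod_congr rfl fun i _ => ?_
    by_cases hi : i ∈ d.support
    · rw [if_pos hi]
    · rw [Finsupp.notMem_support_iff.1 (fun h => hi (hs h)), pow_zero, pow_zero]
  have hzero : ∀ e : Fin m →₀ ℕ, e ≠ d →
      coeff d (algebraMap F (MvPolynomial (Fin m) F) (coeff e P) *
        ∏ i : Fin m, (if i ∈ d.support then (X i : MvPolynomial (Fin m) F) else 0) ^ e i) = 0 := by
    intro e hed
    rw [algebraMap_eq, coeff_C_mul]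
    by_cases hs : e.support ⊆ d.support
    · rw [hone e hs, coeff_monomial, if_neg hed, mul_zero]
    · obtain ⟨i, hi1, hi2⟩ := Finset.not_subset.1 hs
      have h2 : (∏ i : Fin m, (if i ∈ d.support then (X i : MvPolynomial (Fin m) F) else 0) ^
          e i) = 0 := by
        refine Finset.prod_eq_zero (Finset.mem_univ i) ?_
        rw [if_neg hi2, zero_pow (Finsupp.mem_support_iff.1 hi1)]
      rw [h2, coeff_zero, mul_zero]
  by_cases hd0 : d ∈ P.support
  · rw [Finset.sum_eq_single d]
    · rw [hone d (Finset.Subset.refl _), algebraMap_eq, coeff_C_mul, coeff_monomial, if_pos rfl,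
        mul_one]
    · intro e _ hed
      exact hzero e hed
    · intro h; exact absurd hd0 h
  · rw [notMem_support_iff.1 hd0]
    apply Finset.sum_eq_zero
    intro e he
    apply hzero
    rintro rfl
    exact hd0 he

/-- A polynomial that vanishes at all points with at most `r` nonzero coordinates has no
monomial with at most `r` variables. -/
theorem ii_of_eval [Infinite F] {r : ℕ} (g : MvPolynomial (Fin m) F)
    (h : ∀ (T : Finset (Fin m)), T.card ≤ r → ∀ x : Fin m → F, (∀ k, k ∉ T → x k = 0) →
      eval x g = 0) : II r (g : MvPowerSeries (Fin m) F) := by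
  classical
  intro d hd
  rw [MvPolynomial.coeff_coe, ← coeff_restrict g d]
  have hz : (aeval (fun k => if k ∈ d.support then (X k : MvPolynomial (Fin m) F) else 0) g)
      = 0 := by
    refine MvPolynomial.funext fun x => ?_
    rw [map_zero]
    have h1 := MvPolynomial.comp_aeval_apply
      (fun k => if k ∈ d.support then (X k : MvPolynomial (Fin m) F) else 0)
      (aeval x : MvPolynomial (Fin m) F →ₐ[F] F) g
    rw [aeval_eq_eval] at h1
    rw [h1, ← h d.support hd (fun k => if k ∈ d.support then x k else 0)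
      (fun k hk => by simp [hk])]
    have h2 : (fun i => (eval x) (if i ∈ d.support then (X i : MvPolynomial (Fin m) F) else 0)) =
        fun k => if k ∈ d.support then x k else 0 := by
      funext k
      by_cases hk : k ∈ d.support
      · rw [if_pos hk, if_pos hk, eval_X]
      · rw [if_neg hk, if_neg hk, map_zero]
    rw [h2, aeval_eq_eval]
  rw [hz, coeff_zero]

theorem eval_shift (u x : Fin m → F) (f : MvPolynomial (Fin m) F) :
    eval x (shift u f) = eval (fun i => u i + x i) f := by
  rw [shift]
  have h1 := MvPolynomial.comp_aeval_apply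
    (fun i => (X i + C (u i) : MvPolynomial (Fin m) F))
    (aeval x : MvPolynomial (Fin m) F →ₐ[F] F) f
  rw [aeval_eq_eval] at h1
  rw [h1, aeval_eq_eval]
  congr 2
  funext i
  simp [add_comm]

end L29

/-- Row L. -/
theorem stL : StL.{u} := by
  classical
  intro F _ _ m w r f Q hQ hf
  obtain ⟨x, hx⟩ : ∃ x : Fin w ⊕ Fin w → F, eval x (S3.gen F m w Q.prod) ≠ 0 := by
    by_contra h
    exact L29.gen_prod_ne_zero Q hQ (MvPolynomial.funext fun x => by
      rw [map_zero]; by_contra hx; exact h ⟨x, hx⟩)
  set u : Fin m → F := S3.pt (fun i => x (Sum.inl i)) (fun i => x (Sum.inr i)) with hu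
  have hx' : eval u Q.prod ≠ 0 := by
    rw [S3.eval_gen] at hx
    exact hx
  refine ⟨u, ?_, ?_⟩
  · intro P hP h0
    apply hx'
    rw [map_multiset_prod, Multiset.prod_eq_zero_iff, Multiset.mem_map]
    exact ⟨P, hP, h0⟩
  · apply L29.ii_of_eval
    intro T hT v hv
    obtain ⟨y, z, hyz⟩ := S3.exists_seeds T hT v hv
    rw [L29.eval_shift]
    have h5 := S3.aeval_pt_of_gen hf (R := F)
      (Fin.append (fun i => x (Sum.inl i)) y) (Fin.append (fun i => x (Sum.inr i)) z)
    rw [aeval_eq_eval] at h5
    have h6 : (fun i => u i + v i) = (S3.pt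
        (Fin.append (fun i => x (Sum.inl i)) y) (Fin.append (fun i => x (Sum.inr i)) z) :
          Fin m → F) := by
      funext k
      rw [S3.pt_append, hyz]
    rw [h6]
    exact h5

end Pool.Agent.Lib.MP_64d474_lc.FV
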