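import Pool.Agent.Lib.MP_64d474_lc.FV.Main66
import Pool.Agent.Lib.MP_64d474_lc.FV.Wron21
import Pool.Agent.Lib.MP_64d474_lc.FV.T97
import Pool.Agent.Lib.MP_64d474_lc.FV.D46
import Pool.Agent.Lib.MP_64d474_lc.FV.L29

set_option autoImplicit false

namespace Pool.Agent.Lib.MP_64d474_lc.FV

universe u

theorem stM66 : StM.{u} := stM (row97 rowW21) stD46 stL

theorem stFV66 : StFV.{u} := stFV stM66

end Pool.Agent.Lib.MP_64d474_lc.FV
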