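import Pool.Agent.Lib.MP_64d474_lc.FV.Defs66

set_option autoImplicit false

/-!
# FV+ : any polynomial in bordered determinants with bounded transcendence degree
-/

namespace Pool.Agent.Lib.MP_64d474_lc.FV

open MvPolynomial Finset

universe u

/-- the variables outside `S` are replaced by `0` -/
noncomputable def resS {F : Type u} [Field F] {m : ℕ} (S : Finset (Fin m)) :
    MvPolynomial (Fin m) F →ₐ[F] MvPolynomial (Fin m) F :=
  aeval fun i => if i ∈ S then X i else 0

/-- Row J: the Jacobian criterion, hard direction. -/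
def StJ : Prop :=
  ∀ (F : Type u) [Field F] [CharZero F] (m r : ℕ) (f : Fin r → MvPolynomial (Fin m) F),
    AlgebraicIndependent F f →
    ∃ κ : Fin r → Fin m, Matrix.det (Matrix.of fun j a => pderiv (κ a) (f j)) ≠ 0

/-- Row K: the Jacobian criterion, easy direction. -/
def StK : Prop :=
  ∀ (F : Type u) [Field F] [CharZero F] (m r : ℕ) (f : Fin r → MvPolynomial (Fin m) F)
    (κ : Fin r → Fin m), Matrix.det (Matrix.of fun j a => pderiv (κ a) (f j)) ≠ 0 →
    AlgebraicIndependent F f

/-- Row P: few variables keep the independence. -/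
def StP : Prop :=
  ∀ (F : Type u) [Field F] [CharZero F] (m r w W₀ : ℕ) (f T : Fin r → MvPolynomial (Fin m) F),
    (∀ a, constantCoeff (T a) ≠ 0) →
    (∀ a i, MM w ((MvPolynomial.pderiv i (T a) : MvPowerSeries (Fin m) F) *
      ((T a : MvPolynomial (Fin m) F) : MvPowerSeries (Fin m) F)⁻¹)) →
    (∀ a, MM W₀ (((f a : MvPolynomial (Fin m) F) : MvPowerSeries (Fin m) F) *
      ((T a : MvPolynomial (Fin m) F) : MvPowerSeries (Fin m) F)⁻¹)) →
    AlgebraicIndependent F f →
    ∃ S : Finset (Fin m), S.card ≤ r * (W₀ + w + 1) ∧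
      AlgebraicIndependent F fun j => resS S (f j)

/-- the number of variables -/
def rp (w c r : ℕ) : ℕ := r * (c * (w + 2) + w + 1)

/-- Row Q: the theorem for the generator. -/
def StQ : Prop :=
  ∀ (F : Type u) [Field F] [CharZero F] (m w c r p : ℕ) (A : Fin p → Bordered F m c),
    (∀ a, (A a).Few w) →
    (∀ s : Finset (Fin p), AlgebraicIndependent F (fun a : s => (A a).mat.det) → s.card ≤ r) →
    ∀ h ∈ Algebra.adjoin F (Set.range fun a => (A a).mat.det),
      S3.gen F m (w + rp w c r) h = 0 → h = 0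

/-- The final statement of FV+. -/
def StFVP : Prop :=
  ∀ (F : Type u) [Field F] [CharZero F] (m n w c r p : ℕ) (A : Fin p → Bordered F m c),
    (∀ a, (A a).Few w) →
    (∀ s : Finset (Fin p), AlgebraicIndependent F (fun a : s => (A a).mat.det) → s.card ≤ r) →
    ∀ h ∈ Algebra.adjoin F (Set.range fun a => (A a).mat.det), h.totalDegree ≤ n → h ≠ 0 →
      ∃ t ∈ S3.grid m n (w + rp w c r), eval (fun i => ((t i : ℤ) : F)) h ≠ 0

theorem stFVP (hQ : StQ.{u}) : StFVP.{u} := by
  intro F _ _ m n w c r p A hA hr h hh hn h0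
  by_contra hc
  push Not at hc
  exact h0 (hQ F m w c r p A hA hr h hh (S3.gen_eq_zero_of_grid _ hn hc))

end Pool.Agent.Lib.MP_64d474_lc.FV
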