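import Pool.Agent.Lib.MP_64d474_lc.FV.T97
import Pool.Agent.Lib.MP_64d474_lc.FV.L29
import Pool.Agent.Lib.MP_64d474_lc.FV.DefsP66

/-! # Row P: few variables keep the independence -/

set_option autoImplicit false

namespace Pool.Agent.Lib.MP_64d474_lc.FV

open MvPowerSeries Finset

universe u

variable {m : ℕ} {F : Type u} [Field F]

theorem mm_det97 {c b : ℕ} {M : Matrix (Fin c) (Fin c) (MvPowerSeries (Fin m) F)}
    (h : ∀ i j, MM b (M i j)) : MM (c * b) M.det := by
  rw [Matrix.det_apply]
  refine MM.sum _ fun σ _ => ?_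
  have h1 : MM (c * b) (∏ i, M (σ i) i) := by
    have := MM.prod (univ : Finset (Fin c)) (a := fun _ => b) (f := fun i => M (σ i) i)
      fun i _ => h _ _
    rwa [sum_const, card_univ, Fintype.card_fin, smul_eq_mul] at this
  rcases Int.units_eq_one_or (Equiv.Perm.sign σ) with h | h
  · rw [h, one_smul]
    exact h1
  · rw [h, Units.neg_smul, one_smul]
    exact h1.neg

theorem pderiv_resS97 (S : Finset (Fin m)) {i : Fin m} (hi : i ∈ S)
    (g : MvPolynomial (Fin m) F) :
    MvPolynomial.pderiv i (resS S g) = resS S (MvPolynomial.pderiv i g) := by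
  induction g using MvPolynomial.induction_on with
  | C a =>
    rw [MvPolynomial.pderiv_C, map_zero, MvPolynomial.algHom_C, MvPolynomial.algebraMap_eq,
      MvPolynomial.pderiv_C]
  | add p q hp hq => rw [map_add, map_add, map_add, map_add, hp, hq]
  | mul_X p j hp =>
    rw [map_mul, MvPolynomial.pderiv_mul, MvPolynomial.pderiv_mul, map_add, map_mul, map_mul, hp]
    have h1 : MvPolynomial.pderiv i (resS S (MvPolynomial.X j) : MvPolynomial (Fin m) F) =
        resS S (MvPolynomial.pderiv i (MvPolynomial.X j)) := by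
      by_cases hj : j = i
      · subst hj
        rw [MvPolynomial.pderiv_X_self, map_one, resS, MvPolynomial.aeval_X, if_pos hi,
          MvPolynomial.pderiv_X_self]
      · rw [MvPolynomial.pderiv_X_of_ne hj, map_zero, resS, MvPolynomial.aeval_X]
        split_ifs
        · exact MvPolynomial.pderiv_X_of_ne hj
        · exact map_zero _
    rw [h1]

theorem resS_ne_zero97 {P : MvPolynomial (Fin m) F} {d : Fin m →₀ ℕ}
    (hd : MvPolynomial.coeff d P ≠ 0) {S : Finset (Fin m)} (hS : d.support ⊆ S) :
    resS S P ≠ 0 := by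
  intro h
  apply hd
  rw [← L29.coeff_restrict P d]
  have h1 := MvPolynomial.comp_aeval_apply
    (fun i => if i ∈ S then (MvPolynomial.X i : MvPolynomial (Fin m) F) else 0)
    (MvPolynomial.aeval (fun k => if k ∈ d.support then (MvPolynomial.X k :
      MvPolynomial (Fin m) F) else 0)) P
  have h2 : (fun i => (MvPolynomial.aeval (fun k => if k ∈ d.support then (MvPolynomial.X k :
      MvPolynomial (Fin m) F) else 0)) (if i ∈ S then (MvPolynomial.X i : MvPolynomial (Fin m) F)
        else 0)) = fun k => if k ∈ d.support then (MvPolynomial.X k :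
      MvPolynomial (Fin m) F) else 0 := by
    funext i
    by_cases hi : i ∈ d.support
    · rw [if_pos (hS hi), if_pos hi, MvPolynomial.aeval_X, if_pos hi]
    · by_cases hi2 : i ∈ S
      · rw [if_pos hi2, if_neg hi, MvPolynomial.aeval_X, if_neg hi]
      · rw [if_neg hi2, if_neg hi, map_zero]
  rw [h2] at h1
  rw [← h1]
  have h3 : (MvPolynomial.aeval (fun i => if i ∈ S then (MvPolynomial.X i :
      MvPolynomial (Fin m) F) else 0)) P = resS S P := rfl
  rw [h3, h, map_zero, MvPolynomial.coeff_zero]

theorem rowP97 (hJ : StJ.{u}) (hK : StK.{u}) : StP.{u} := by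
  classical
  intro F _ _ m r w W₀ f T hT hlog hf hind
  obtain ⟨κ, hκ⟩ := hJ F m r f hind
  obtain ⟨J, hJd⟩ : ∃ J : MvPolynomial (Fin m) F,
      J = Matrix.det (Matrix.of fun j a => MvPolynomial.pderiv (κ a) (f j)) := ⟨_, rfl⟩
  rw [← hJd] at hκ
  obtain ⟨c, hc⟩ : ∃ c : Fin r → MvPowerSeries (Fin m) F,
      c = fun a => (T a : MvPowerSeries (Fin m) F)⁻¹ := ⟨_, rfl⟩
  obtain ⟨A, hA⟩ : ∃ A : Matrix (Fin r) (Fin r) (MvPowerSeries (Fin m) F),
      A = Matrix.of fun j a => ((MvPolynomial.pderiv (κ a) (f j) : MvPolynomial (Fin m) F) :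
        MvPowerSeries (Fin m) F) := ⟨_, rfl⟩
  have hAd : A.det = (J : MvPowerSeries (Fin m) F) := by
    have := RingHom.map_det (MvPolynomial.coeToMvPowerSeries.ringHom (R := F) (σ := Fin m))
      (Matrix.of fun j a => MvPolynomial.pderiv (κ a) (f j))
    rw [MvPolynomial.coeToMvPowerSeries.ringHom_apply] at this
    rw [hJd, this, hA]
    rfl
  have hD := Matrix.det_mul_column c A
  have hMM : MM (r * (W₀ + w)) (Matrix.det (Matrix.of fun i j => c i * A i j)) := by
    refine mm_det97 fun i j => ?_
    have h3 := MM.word (fun k => by rw [pderiv_coe]; exact hlog i k) (hf i) [κ j]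
    rw [List.length_singleton, mul_one] at h3
    have h5 : (Matrix.of fun i j => c i * A i j) i j =
        ((pd [κ j] (f i) : MvPolynomial (Fin m) F) : MvPowerSeries (Fin m) F) *
          (T i : MvPowerSeries (Fin m) F)⁻¹ := by
      rw [Matrix.of_apply, hc, hA]
      exact mul_comm _ _
    rw [h5]
    exact h3
  have hprod : ∏ a, c a ≠ 0 := by
    refine prod_ne_zero_iff.2 fun a _ => ?_
    rw [hc]
    intro h
    rw [MvPowerSeries.inv_eq_zero] at h
    apply hT a
    have h5 := MvPolynomial.coeff_coe (T a) 0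
    rw [MvPowerSeries.coeff_zero_eq_constantCoeff, h] at h5
    rw [MvPolynomial.constantCoeff_eq]
    exact h5.symm
  have hnot : ¬ II (r * (W₀ + w)) (J : MvPowerSeries (Fin m) F) := by
    intro hII
    have hz : Matrix.det (Matrix.of fun i j => c i * A i j) = 0 := by
      refine hMM.eq_zero ?_
      rw [hD, hAd]
      exact hII.mul_left _
    rw [hD, hAd] at hz
    exact hκ (MvPolynomial.coe_injective _ _
      (by rw [(mul_eq_zero.1 hz).resolve_left hprod, MvPolynomial.coe_zero]))
  unfold II at hnot
  push Not at hnot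
  obtain ⟨d, hd, hdJ⟩ := hnot
  rw [MvPolynomial.coeff_coe] at hdJ
  refine ⟨d.support ∪ univ.image κ, ?_, ?_⟩
  · refine (card_union_le _ _).trans ?_
    have h1 : (univ.image κ).card ≤ r := card_image_le.trans (by
      rw [card_univ, Fintype.card_fin])
    calc d.support.card + (univ.image κ).card ≤ r * (W₀ + w) + r := add_le_add hd h1
      _ = r * (W₀ + w + 1) := by ring
  · refine hK F m r _ κ ?_
    have h1 : Matrix.det (Matrix.of fun j a => MvPolynomial.pderiv (κ a)
        (resS (d.support ∪ univ.image κ) (f j))) = resS (d.support ∪ univ.image κ) J := by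
      rw [hJd, AlgHom.map_det]
      refine congrArg Matrix.det (Matrix.ext fun j a => ?_)
      show MvPolynomial.pderiv (κ a) (resS (d.support ∪ univ.image κ) (f j)) =
        resS (d.support ∪ univ.image κ) (MvPolynomial.pderiv (κ a) (f j))
      exact pderiv_resS97 _ (mem_union_right _ (mem_image_of_mem κ (mem_univ a))) _
    rw [h1]
    exact resS_ne_zero97 hdJ subset_union_left

end Pool.Agent.Lib.MP_64d474_lc.FV
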