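import Pool.Agent.Lib.MP_64d474_lc.FV.Jac66
import Pool.Agent.Lib.MP_64d474_lc.FV.D46
import Pool.Agent.Lib.MP_64d474_lc.FV.L29
import Pool.Agent.Lib.MP_64d474_lc.FV.P97
import Pool.Agent.Lib.MP_64d474_lc.FV.K97
import Pool.Agent.Lib.MP_64d474_lc.FV.J95

set_option autoImplicit false

namespace Pool.Agent.Lib.MP_64d474_lc.FV

universe u

theorem stQ66 : StQ.{u} := stQ (rowP97 J95.stJ95 rowK97) stD46 stL

theorem stFVP66 : StFVP.{u} := stFVP stQ66

end Pool.Agent.Lib.MP_64d474_lc.FV
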