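import Pool.Agent.Lib.MP_64d474_lc.FV.Q66
import Pool.Agent.Lib.MP_64d474_lc.S3.Hit35b

set_option autoImplicit false

/-!
# Jacobians that are hit by the generator
-/

namespace Pool.Agent.Lib.MP_64d474_lc.FV

open MvPolynomial Finset

universe u

/-- the coordinates in `I` are free, the others are those of `x₀`: `x ↦ x₀ + x_I` -/
noncomputable def slice {F : Type u} [Field F] {m : ℕ} (x₀ : Fin m → F) (I : Finset (Fin m)) :
    MvPolynomial (Fin m) F →ₐ[F] MvPolynomial (Fin m) F :=
  aeval fun i => C (x₀ i) + if i ∈ I then X i else 0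

theorem constantCoeff_slice {F : Type u} [Field F] {m : ℕ} (x₀ : Fin m → F) (I : Finset (Fin m))
    (f : MvPolynomial (Fin m) F) : constantCoeff (slice x₀ I f) = eval x₀ f := by
  have h : (constantCoeff (R := F) (σ := Fin m)).comp
      (slice (F := F) x₀ I : MvPolynomial (Fin m) F →+* MvPolynomial (Fin m) F) = eval x₀ := by
    apply MvPolynomial.ringHom_ext
    · intro r
      simp [slice]
    · intro i
      by_cases hi : i ∈ I <;> simp [slice, hi]
  exact congrArg (fun g : MvPolynomial (Fin m) F →+* F => g f) h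

theorem eval_slice {F : Type u} [Field F] {m : ℕ} (x₀ x : Fin m → F) (I : Finset (Fin m))
    (f : MvPolynomial (Fin m) F) :
    eval x (slice x₀ I f) = eval (fun i => x₀ i + if i ∈ I then x i else 0) f := by
  have h : (eval x).comp
      (slice (F := F) x₀ I : MvPolynomial (Fin m) F →+* MvPolynomial (Fin m) F) =
      eval (fun i => x₀ i + if i ∈ I then x i else 0) := by
    apply MvPolynomial.ringHom_ext
    · intro r
      simp [slice]
    · intro i
      by_cases hi : i ∈ I <;> simp [slice, hi]
  exact congrArg (fun g : MvPolynomial (Fin m) F →+* F => g f) h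

theorem pderiv_slice {F : Type u} [Field F] {m : ℕ} (x₀ : Fin m → F) (I : Finset (Fin m))
    (i : Fin m) (hi : i ∈ I) (f : MvPolynomial (Fin m) F) :
    pderiv i (slice x₀ I f) = slice x₀ I (pderiv i f) := by
  induction f using MvPolynomial.induction_on with
  | C a => simp [slice]
  | add p q hp hq => simp only [map_add, hp, hq]
  | mul_X p j hp =>
    rw [map_mul, Derivation.leibniz, Derivation.leibniz, map_add, hp]
    simp only [smul_eq_mul, map_mul]
    have h1 : pderiv i (slice x₀ I (X j)) = slice x₀ I (pderiv i (X j)) := by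
      rw [slice, aeval_X, map_add, pderiv_C, zero_add, pderiv_X]
      by_cases hj : j ∈ I
      · rw [if_pos hj, pderiv_X]
        by_cases hij : j = i
        · subst hij; simp
        · simp [Pi.single_apply, hij]
      · rw [if_neg hj, map_zero]
        have hij : i ≠ j := fun h => hj (h ▸ hi)
        simp [Ne.symm hij]
    rw [h1]

/-- If all nonzero maximal minors of the Jacobian matrices of independent subfamilies are hit by the
generator with `s₀` seeds, then every nonzero polynomial in the family is hit with `s₀ + r`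
seeds. -/
theorem jacHit (hJ : StJ.{u}) (hK : StK.{u}) {F : Type u} [Field F] [CharZero F] {m p r s₀ : ℕ}
    (f : Fin p → MvPolynomial (Fin m) F)
    (hr : ∀ s : Finset (Fin p), AlgebraicIndependent F (fun a : s => f a) → s.card ≤ r)
    (hit : ∀ (ρ : ℕ) (e : Fin ρ → Fin p) (κ : Fin ρ → Fin m), ρ ≤ r →
      Matrix.det (Matrix.of fun j a => pderiv (κ a) (f (e j))) ≠ 0 →
      S3.gen F m s₀ (Matrix.det (Matrix.of fun j a => pderiv (κ a) (f (e j)))) ≠ 0)
    (h : MvPolynomial (Fin m) F) (hh : h ∈ Algebra.adjoin F (Set.range f))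
    (hgen : S3.gen F m (s₀ + r) h = 0) : h = 0 := by
  classical
  by_contra h0
  obtain ⟨s, hs, e, he, hkeep⟩ := keep f h hh h0
  have hsr := hr s hs
  obtain ⟨κ, hκ⟩ := hJ F m s.card (fun j => f (e j)) he
  have h1 := hit s.card e κ hsr hκ
  obtain ⟨x, hx⟩ : ∃ x : Fin s₀ ⊕ Fin s₀ → F, eval x (S3.gen F m s₀
      (Matrix.det (Matrix.of fun j a => pderiv (κ a) (f (e j))))) ≠ 0 := by
    by_contra hc
    exact h1 (MvPolynomial.funext fun x => by
      rw [map_zero]; by_contra hx; exact hc ⟨x, hx⟩)
  rw [S3.eval_gen] at hx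
  let x₀ : Fin m → F := S3.pt (fun i => x (Sum.inl i)) (fun i => x (Sum.inr i))
  let I : Finset (Fin m) := univ.image κ
  have hI : I.card ≤ r := (Finset.card_image_le.trans (by simp)).trans hsr
  refine hkeep (slice x₀ I) (hK F m s.card _ κ ?_) ?_
  · have h2 : (Matrix.of fun j a => pderiv (κ a) (slice x₀ I (f (e j)))) =
        (Matrix.of fun j a => pderiv (κ a) (f (e j))).map (slice x₀ I) := by
      ext1 j a
      exact pderiv_slice x₀ I (κ a) (Finset.mem_image_of_mem κ (Finset.mem_univ a)) _
    rw [h2]
    intro h3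
    have h4 := (slice x₀ I).map_det (Matrix.of fun j a => pderiv (κ a) (f (e j)))
    have h5 : (slice x₀ I) (Matrix.det (Matrix.of fun j a => pderiv (κ a) (f (e j)))) = 0 := by
      rw [h4]; exact h3
    apply hx
    have h6 := constantCoeff_slice x₀ I
      (Matrix.det (Matrix.of fun j a => pderiv (κ a) (f (e j))))
    rw [h5, map_zero] at h6
    exact h6.symm
  · apply MvPolynomial.funext
    intro t
    rw [map_zero, eval_slice]
    obtain ⟨y, z, hyz⟩ := S3.exists_seeds (s := r) I hI (fun i => if i ∈ I then t i else 0)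
      (fun k hk => if_neg hk)
    have h7 := S3.aeval_pt_of_gen hgen
      (Fin.append (fun i => x (Sum.inl i)) y) (Fin.append (fun i => x (Sum.inr i)) z)
    have h8 : (S3.pt (Fin.append (fun i => x (Sum.inl i)) y)
        (Fin.append (fun i => x (Sum.inr i)) z) : Fin m → F) =
        fun i => x₀ i + if i ∈ I then t i else 0 := by
      funext k
      rw [S3.pt_append]
      exact congrArg (x₀ k + ·) (congrFun hyz k)
    rw [h8, aeval_eq_eval] at h7
    exact h7

end Pool.Agent.Lib.MP_64d474_lc.FV
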