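import Pool.Agent.Lib.MP_64d474_lc.FV.L29

set_option autoImplicit false

/-!
# Row M: the theorem for the generator, from rows T and D
-/

namespace Pool.Agent.Lib.MP_64d474_lc.FV

open MvPolynomial Finset

universe u

namespace M29

variable {F : Type u} [Field F] {m : ℕ}

theorem shift_comp (u : Fin m → F) (f : MvPolynomial (Fin m) F) :
    shift (fun i => -u i) (shift u f) = f := by
  have h : (shift (fun i => -u i)).comp (shift u) = AlgHom.id F (MvPolynomial (Fin m) F) := by
    apply MvPolynomial.algHom_ext
    intro i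
    simp [shift]
  have := congrArg (fun g : MvPolynomial (Fin m) F →ₐ[F] MvPolynomial (Fin m) F => g f) h
  simpa using this

theorem shift_injective (u : Fin m → F) : Function.Injective (shift u) := by
  intro f g h
  rw [← shift_comp u f, h, shift_comp]

theorem shift_ne_zero {u : Fin m → F} {f : MvPolynomial (Fin m) F} (hf : f ≠ 0) :
    shift u f ≠ 0 := by
  intro h
  exact hf (shift_injective u (by rw [h, map_zero]))

theorem constantCoeff_shift (u : Fin m → F) (f : MvPolynomial (Fin m) F) :
    constantCoeff (shift u f) = eval u f := by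
  have h : (constantCoeff : MvPolynomial (Fin m) F →+* F).comp (shift u).toRingHom =
      (eval u : MvPolynomial (Fin m) F →+* F) := by
    apply MvPolynomial.ringHom_ext
    · intro r
      simp [shift]
    · intro i
      simp [shift]
  exact congrArg (fun g : MvPolynomial (Fin m) F →+* F => g f) h

theorem vars_shift (u : Fin m → F) (f : MvPolynomial (Fin m) F) {S : Finset (Fin m)}
    (hf : f.vars ⊆ S) : (shift u f).vars ⊆ S := by
  classical
  have hg : shift u f = aeval (fun i => if i ∈ S then (X i + C (u i) : MvPolynomial (Fin m) F)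
      else 0) f := by
    rw [shift]
    apply eval₂Hom_congr' rfl _ rfl
    intro i hi _
    rw [if_pos (hf hi)]
  have h1 : Algebra.adjoin F (Set.range fun i => if i ∈ S then
      (X i + C (u i) : MvPolynomial (Fin m) F) else 0) ≤
      MvPolynomial.supported F (S : Set (Fin m)) := by
    rw [Algebra.adjoin_le_iff]
    rintro _ ⟨i, rfl⟩
    dsimp only
    split_ifs with hi
    · apply Subalgebra.add_mem
      · exact X_mem_supported.2 hi
      · exact Subalgebra.algebraMap_mem _ (u i)
    · exact Subalgebra.zero_mem _
  have h2 : shift u f ∈ MvPolynomial.supported F (S : Set (Fin m)) := by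
    apply h1
    rw [Algebra.adjoin_range_eq_range_aeval, hg]
    exact ⟨f, rfl⟩
  rw [MvPolynomial.mem_supported] at h2
  exact_mod_cast h2

theorem totalDegree_shift (u : Fin m → F) (f : MvPolynomial (Fin m) F) :
    (shift u f).totalDegree ≤ f.totalDegree := by
  classical
  rw [shift, aeval_def, eval₂_eq']
  refine (totalDegree_finsetSum _ _).trans (Finset.sup_le fun d hd => ?_)
  refine (totalDegree_mul _ _).trans ?_
  rw [algebraMap_eq, totalDegree_C, zero_add]
  refine (totalDegree_finsetProd _ _).trans ?_
  refine le_trans (Finset.sum_le_sum fun i _ => ?_) (?_ : ∑ i, d i ≤ f.totalDegree)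
  · refine (totalDegree_pow _ _).trans ?_
    calc d i * (X i + C (u i) : MvPolynomial (Fin m) F).totalDegree ≤ d i * 1 := by
          apply Nat.mul_le_mul_left
          refine (totalDegree_add _ _).trans (max_le ?_ ?_)
          · rw [totalDegree_X]
          · rw [totalDegree_C]; exact Nat.zero_le _
      _ = d i := mul_one _
  · refine le_trans (le_of_eq ?_) (le_totalDegree hd)
    rw [Finsupp.sum_fintype _ _ (by simp)]

/-- the shifted matrix -/
noncomputable def sh {c : ℕ} (u : Fin m → F) (A : Bordered F m c) : Bordered F m c where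
  p := A.p
  sz := A.sz
  B := fun i => (A.B i).map (shift u)
  U := A.U.map (shift u)
  V := A.V.map (shift u)
  W := A.W.map (shift u)

theorem det_map {n : Type} [Fintype n] [DecidableEq n] (u : Fin m → F)
    (M : Matrix n n (MvPolynomial (Fin m) F)) : (M.map (shift u)).det = shift u M.det := by
  rw [AlgHom.map_det]
  rfl

theorem sh_mat {c : ℕ} (u : Fin m → F) (A : Bordered F m c) :
    (sh u A).mat = A.mat.map (shift u) := by
  change Matrix.fromBlocks (Matrix.blockDiagonal' fun i => (A.B i).map (shift u))
    (A.U.map (shift u)) (A.V.map (shift u)) (A.W.map (shift u)) =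
    (Matrix.fromBlocks (Matrix.blockDiagonal' A.B) A.U A.V A.W).map (shift u)
  rw [Matrix.fromBlocks_map, Matrix.blockDiagonal'_map _ _ (map_zero (shift u))]

theorem sh_det {c : ℕ} (u : Fin m → F) (A : Bordered F m c) :
    (sh u A).mat.det = shift u A.mat.det := by
  rw [← det_map, ← sh_mat]
  rfl

theorem few_sh {c w : ℕ} (u : Fin m → F) (A : Bordered F m c) (hA : A.Few w) :
    (sh u A).Few w := by
  obtain ⟨h1, h2, h3, h4⟩ := hA
  refine ⟨fun i => ⟨?_, ?_⟩, fun p q => ?_, fun p q => ?_, fun p q => ?_⟩
  · change ((A.B i).map (shift u)).det ≠ 0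
    rw [det_map]
    exact shift_ne_zero (h1 i).1
  · obtain ⟨S, hS, hv⟩ := (h1 i).2
    exact ⟨S, hS, fun p q => vars_shift u _ (hv p q)⟩
  · exact (totalDegree_shift u _).trans (h2 p q)
  · exact (totalDegree_shift u _).trans (h3 p q)
  · exact (totalDegree_shift u _).trans (h4 p q)

theorem vars_det {n : Type} [Fintype n] [DecidableEq n] {S : Finset (Fin m)}
    (M : Matrix n n (MvPolynomial (Fin m) F)) (h : InVars S M) : M.det.vars ⊆ S := by
  have : M.det ∈ MvPolynomial.supported F (S : Set (Fin m)) := by
    rw [Matrix.det_apply]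
    apply Subalgebra.sum_mem
    intro σ _
    rw [Units.smul_def, zsmul_eq_mul]
    apply Subalgebra.mul_mem
    · exact intCast_mem _ _
    · apply Subalgebra.prod_mem
      intro i _
      rw [MvPolynomial.mem_supported]
      exact_mod_cast h (σ i) i
  rw [MvPolynomial.mem_supported] at this
  exact_mod_cast this

theorem mm_C_mul {W : ℕ} (a : F) (g : MvPowerSeries (Fin m) F) (h : MM W g) :
    MM W (((C a : MvPolynomial (Fin m) F) : MvPowerSeries (Fin m) F) * g) := by
  intro d hd
  apply h d
  intro h0
  apply hd
  rw [MvPolynomial.coe_C, MvPowerSeries.coeff_C_mul, h0, mul_zero]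

end M29

open M29 in
/-- Row M. -/
theorem stM (hT : StT.{u}) (hD : StD.{u}) : StM.{u} := by
  classical
  intro F _ _ m w c k A lam hA hf
  obtain ⟨u, hu, hII⟩ := stL F m w (rr w c k) (∑ a, C (lam a) * (A a).mat.det)
    (∑ a, ∑ i, {((A a).B i).det}) (by
      intro P hP
      rw [Multiset.mem_sum] at hP
      obtain ⟨a, _, hP⟩ := hP
      rw [Multiset.mem_sum] at hP
      obtain ⟨i, _, hP⟩ := hP
      rw [Multiset.mem_singleton] at hP
      subst hP
      obtain ⟨h1, S, hS, hv⟩ := (hA a).1 i
      exact ⟨h1, (Finset.card_le_card (vars_det _ hv)).trans hS⟩) hf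
  have hu' : ∀ a i, eval u ((A a).B i).det ≠ 0 := by
    intro a i
    apply hu
    rw [Multiset.mem_sum]
    refine ⟨a, mem_univ _, ?_⟩
    rw [Multiset.mem_sum]
    exact ⟨i, mem_univ _, Multiset.mem_singleton_self _⟩
  have hDD := fun a => hD F m c w (sh u (A a)) (few_sh u (A a) (hA a)) (by
    intro i
    change constantCoeff ((((A a).B i).map (shift u)).det) ≠ 0
    rw [det_map, constantCoeff_shift]
    exact hu' a i)
  have hsh : shift u (∑ a, C (lam a) * (A a).mat.det) =
      ∑ a, C (lam a) * (sh u (A a)).mat.det := by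
    rw [map_sum]
    apply Finset.sum_congr rfl
    intro a _
    rw [map_mul, sh_det]
    congr 1
    simp [shift]
  have hz := hT F m k w (c * (w + 2)) (fun a => C (lam a) * (sh u (A a)).mat.det)
    (fun a => ∏ i, ((sh u (A a)).B i).det) (fun a => (hDD a).1) (fun a => (hDD a).2.1)
    (fun a => by
      have := mm_C_mul (lam a) _ (hDD a).2.2
      rw [← mul_assoc] at this
      rw [MvPolynomial.coe_mul]
      exact this) (by
      rw [← hsh]
      exact hII)
  rw [← hsh] at hz
  exact shift_injective u (by rw [hz, map_zero])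

end Pool.Agent.Lib.MP_64d474_lc.FV
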