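import Pool.Agent.Lib.MP_64d474_lc.FV.Defs66

set_option autoImplicit false

/-!
# Row M: the theorem for the generator from the rows T, D and L
-/

namespace Pool.Agent.Lib.MP_64d474_lc.FV

open MvPolynomial Finset

universe u

section

variable {F : Type u} [Field F] {m : ℕ}

theorem shift_shift (u : Fin m → F) (P : MvPolynomial (Fin m) F) :
    shift (fun i => - u i) (shift u P) = P := by
  have h : (shift (F := F) (fun i => - u i)).comp (shift u) = AlgHom.id F _ := by
    apply MvPolynomial.algHom_ext
    intro i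
    simp only [shift, AlgHom.comp_apply, aeval_X, map_add, AlgHom.id_apply, C_neg]
    rw [← algebraMap_eq, AlgHom.commutes]
    ring
  exact congrArg (fun g : MvPolynomial (Fin m) F →ₐ[F] MvPolynomial (Fin m) F => g P) h

theorem shift_injective (u : Fin m → F) : Function.Injective (shift (F := F) u) := by
  intro P Q h
  rw [← shift_shift u P, h, shift_shift]

theorem constantCoeff_shift (u : Fin m → F) (P : MvPolynomial (Fin m) F) :
    constantCoeff (shift u P) = eval u P := by
  have h : (constantCoeff (R := F) (σ := Fin m)).comp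
      (shift (F := F) u : MvPolynomial (Fin m) F →+* MvPolynomial (Fin m) F) = eval u := by
    apply MvPolynomial.ringHom_ext
    · intro r
      simp [shift]
    · intro i
      simp [shift]
  exact congrArg (fun g : MvPolynomial (Fin m) F →+* F => g P) h

theorem vars_shift (u : Fin m → F) (S : Finset (Fin m)) (P : MvPolynomial (Fin m) F)
    (hP : P.vars ⊆ S) : (shift u P).vars ⊆ S := by
  have h1 : P ∈ supported F (S : Set (Fin m)) := by
    rw [mem_supported]; exact_mod_cast hP
  have h2 : (supported F (S : Set (Fin m))).map (shift u) ≤ supported F (S : Set (Fin m)) := by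
    rw [supported, AlgHom.map_adjoin, Algebra.adjoin_le_iff]
    rintro _ ⟨_, ⟨i, hi, rfl⟩, rfl⟩
    have h3 : shift u (X i) = X i + algebraMap F (MvPolynomial (Fin m) F) (u i) := by
      simp [shift, algebraMap_eq]
    rw [SetLike.mem_coe, h3]
    exact Subalgebra.add_mem _ (Algebra.subset_adjoin ⟨i, hi, rfl⟩)
      (Subalgebra.algebraMap_mem _ _)
  have h4 : shift u P ∈ supported F (S : Set (Fin m)) := h2 (Subalgebra.mem_map.2 ⟨P, h1, rfl⟩)
  rw [mem_supported] at h4
  exact_mod_cast h4

theorem totalDegree_shift (u : Fin m → F) (P : MvPolynomial (Fin m) F) :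
    (shift u P).totalDegree ≤ P.totalDegree := by
  rw [shift, aeval_def, eval₂_eq]
  refine (totalDegree_finsetSum _ _).trans (Finset.sup_le fun d hd => ?_)
  refine (totalDegree_mul _ _).trans ?_
  have h1 : (algebraMap F (MvPolynomial (Fin m) F) (coeff d P)).totalDegree = 0 := by
    rw [algebraMap_eq]; exact totalDegree_C _
  rw [h1, zero_add]
  refine (totalDegree_finsetProd _ _).trans ?_
  have h2 : ∀ i, (X i + C (u i) : MvPolynomial (Fin m) F).totalDegree ≤ 1 := fun i => by
    refine (totalDegree_add _ _).trans ?_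
    rw [totalDegree_X, totalDegree_C]; simp
  calc ∑ i ∈ d.support, ((X i + C (u i) : MvPolynomial (Fin m) F) ^ d i).totalDegree
      ≤ ∑ i ∈ d.support, d i * 1 :=
        Finset.sum_le_sum fun i _ => (totalDegree_pow _ _).trans (Nat.mul_le_mul_left (d i) (h2 i))
    _ = ∑ i ∈ d.support, d i := by simp only [mul_one]
    _ ≤ P.totalDegree := le_totalDegree hd

theorem vars_det {n : Type} [Fintype n] [DecidableEq n] (S : Finset (Fin m))
    (M : Matrix n n (MvPolynomial (Fin m) F)) (hM : InVars S M) : M.det.vars ⊆ S := by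
  have h1 : M.det ∈ supported F (S : Set (Fin m)) := by
    rw [Matrix.det_apply]
    refine Subalgebra.sum_mem _ fun σ _ => ?_
    have h2 : ∏ i, M (σ i) i ∈ supported F (S : Set (Fin m)) := by
      refine Subalgebra.prod_mem _ fun i _ => ?_
      rw [mem_supported]
      exact_mod_cast hM (σ i) i
    rcases Int.units_eq_one_or (Equiv.Perm.sign σ) with h | h
    · rw [h, one_smul]; exact h2
    · rw [h, Units.neg_smul, one_smul]; exact Subalgebra.neg_mem _ h2
  rw [mem_supported] at h1
  exact_mod_cast h1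

/-- the shift of the parts -/
noncomputable def Bordered.sh {c : ℕ} (u : Fin m → F) (A : Bordered F m c) : Bordered F m c where
  p := A.p
  sz := A.sz
  B := fun i => (A.B i).map (shift u)
  U := A.U.map (shift u)
  V := A.V.map (shift u)
  W := A.W.map (shift u)

theorem det_B_sh {c : ℕ} (u : Fin m → F) (A : Bordered F m c) (i : Fin A.p) :
    ((A.sh u).B i).det = shift u (A.B i).det := by
  rw [AlgHom.map_det]; rfl

theorem det_mat_sh {c : ℕ} (u : Fin m → F) (A : Bordered F m c) :
    (A.sh u).mat.det = shift u A.mat.det := by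
  rw [AlgHom.map_det]
  congr 1
  change Matrix.fromBlocks (Matrix.blockDiagonal' fun i => (A.B i).map (shift u))
    (A.U.map (shift u)) (A.V.map (shift u)) (A.W.map (shift u)) =
    (Matrix.fromBlocks (Matrix.blockDiagonal' A.B) A.U A.V A.W).map (shift u)
  rw [Matrix.fromBlocks_map, Matrix.blockDiagonal'_map _ _ (map_zero _)]

theorem Few_sh {c w : ℕ} (u : Fin m → F) (A : Bordered F m c) (hA : A.Few w) :
    (A.sh u).Few w := by
  obtain ⟨h1, h2, h3, h4⟩ := hA
  refine ⟨fun i => ⟨?_, ?_⟩, fun p q => ?_, fun p q => ?_, fun p q => ?_⟩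
  · intro h
    exact (h1 i).1 (shift_injective u (by rw [← det_B_sh u A i, map_zero]; exact h))
  · obtain ⟨S, hS, hB⟩ := (h1 i).2
    exact ⟨S, hS, fun p q => vars_shift u S _ (hB p q)⟩
  · exact (totalDegree_shift u _).trans (h2 p q)
  · exact (totalDegree_shift u _).trans (h3 p q)
  · exact (totalDegree_shift u _).trans (h4 p q)

end

theorem stM (hT : StT.{u}) (hD : StD.{u}) (hL : StL.{u}) : StM.{u} := by
  intro F _ _ m w c k A lam hA hf
  let Q : Multiset (MvPolynomial (Fin m) F) :=
    (univ : Finset ((a : Fin k) × Fin (A a).p)).val.map fun x => ((A x.1).B x.2).det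
  have hQ : ∀ P ∈ Q, P ≠ 0 ∧ P.vars.card ≤ w := by
    intro P hP
    obtain ⟨x, _, rfl⟩ := Multiset.mem_map.1 hP
    obtain ⟨h1, S, hS, hB⟩ := (hA x.1).1 x.2
    exact ⟨h1, (Finset.card_le_card (vars_det S _ hB)).trans hS⟩
  obtain ⟨u, hu, hI⟩ := hL F m w (rr w c k) _ Q hQ hf
  have hc : ∀ a i, constantCoeff (((A a).sh u).B i).det ≠ 0 := by
    intro a i
    intro h
    refine hu _ (Multiset.mem_map.2 ⟨⟨a, i⟩, Finset.mem_univ _, rfl⟩) ?_
    change eval u ((A a).B i).det = 0
    rw [← constantCoeff_shift, ← det_B_sh u (A a) i]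
    exact h
  have hshift : shift u (∑ a, C (lam a) * (A a).mat.det) =
      ∑ a, C (lam a) * ((A a).sh u).mat.det := by
    rw [map_sum]
    refine Finset.sum_congr rfl fun a _ => ?_
    rw [map_mul, det_mat_sh]
    congr 1
    rw [← algebraMap_eq, AlgHom.commutes]
  rw [hshift] at hI
  have h0 := hT F m k w (c * (w + 2)) (fun a => C (lam a) * ((A a).sh u).mat.det)
    (fun a => ∏ i, (((A a).sh u).B i).det)
    (fun a => (hD F m c w _ (Few_sh u _ (hA a)) (hc a)).1)
    (fun a => (hD F m c w _ (Few_sh u _ (hA a)) (hc a)).2.1) (fun a => ?_) hI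
  · apply shift_injective u
    rw [map_zero, hshift]
    exact h0
  · have h1 := (hD F m c w _ (Few_sh u _ (hA a)) (hc a)).2.2
    intro d hd
    apply h1 d
    intro h2
    apply hd
    rw [MvPolynomial.coe_mul, MvPolynomial.coe_C, mul_assoc, MvPowerSeries.coeff_C_mul, h2, mul_zero]

end Pool.Agent.Lib.MP_64d474_lc.FV
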