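import Pool.Agent.Lib.MP_64d474_lc.FV.DefsP66
import Pool.Agent.Lib.MP_64d474_lc.FV.Main66

set_option autoImplicit false

/-!
# Row Q: any polynomial of bounded transcendence degree
-/

namespace Pool.Agent.Lib.MP_64d474_lc.FV

open MvPolynomial Finset

universe u

/-- A nonzero polynomial in the `T j` is kept by every homomorphism that keeps a maximal
independent subfamily independent. -/
theorem keep {F : Type u} [Field F] {m p : ℕ} (T : Fin p → MvPolynomial (Fin m) F)
    (h : MvPolynomial (Fin m) F) (hh : h ∈ Algebra.adjoin F (Set.range T)) (h0 : h ≠ 0) :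
    ∃ s : Finset (Fin p), AlgebraicIndependent F (fun j : s => T j) ∧
      ∃ e : Fin s.card → Fin p, AlgebraicIndependent F (fun j => T (e j)) ∧
      ∀ φ : MvPolynomial (Fin m) F →ₐ[F] MvPolynomial (Fin m) F,
        AlgebraicIndependent F (fun j => φ (T (e j))) → φ h ≠ 0 := by
  classical
  obtain ⟨s, hs, hmax⟩ := Finset.exists_max_image
    (Finset.univ.filter fun s : Finset (Fin p) => AlgebraicIndependent F (fun j : s => T j))
    Finset.card ⟨∅, by
      simp only [Finset.mem_filter, Finset.mem_univ, true_and]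
      exact algebraicIndependent_empty_type⟩
  simp only [Finset.mem_filter, Finset.mem_univ, true_and] at hs hmax
  have hs' : AlgebraicIndepOn F T (s : Set (Fin p)) := hs
  have halg : ∀ i, IsAlgebraic (Algebra.adjoin F (T '' (s : Set (Fin p)))) (T i) := by
    intro i
    by_cases hi : i ∈ s
    · exact isAlgebraic_algebraMap
        (⟨T i, Algebra.subset_adjoin ⟨i, hi, rfl⟩⟩ : Algebra.adjoin F (T '' (s : Set (Fin p))))
    · by_contra hcon
      have h1 : AlgebraicIndepOn F T (insert i (s : Set (Fin p))) := hs'.insert hcon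
      have h2 : AlgebraicIndependent F (fun j : (insert i s : Finset (Fin p)) => T j) := by
        have h3 : ((insert i s : Finset (Fin p)) : Set (Fin p)) = insert i (s : Set (Fin p)) :=
          Finset.coe_insert i s
        rw [← h3] at h1
        exact h1
      have h4 := hmax _ h2
      rw [Finset.card_insert_of_notMem hi] at h4
      omega
  have halgh : IsAlgebraic (Algebra.adjoin F (T '' (s : Set (Fin p)))) h := by
    have hle : Algebra.adjoin F (Set.range T) ≤
        (Subalgebra.algebraicClosure (Algebra.adjoin F (T '' (s : Set (Fin p))))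
          (MvPolynomial (Fin m) F)).restrictScalars F := by
      rw [Algebra.adjoin_le_iff]
      rintro _ ⟨i, rfl⟩
      exact halg i
    exact hle hh
  obtain ⟨q, hq0, hdvd⟩ := halgh.exists_nonzero_dvd (mem_nonZeroDivisors_of_ne_zero h0)
  let e : Fin s.card ≃ s := s.equivFin.symm
  have hT' : AlgebraicIndependent F (fun j : Fin s.card => T (e j)) := hs.comp e e.injective
  refine ⟨s, hs, fun j => (e j : Fin p), hT', fun φ hind hzero => ?_⟩
  have hq : (q : MvPolynomial (Fin m) F) ∈ Algebra.adjoin F
      (Set.range fun j : Fin s.card => T (e j)) := by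
    have h5 : (Set.range fun j : Fin s.card => T (e j)) = T '' (s : Set (Fin p)) := by
      ext p
      constructor
      · rintro ⟨j, rfl⟩
        exact ⟨e j, (e j).2, rfl⟩
      · rintro ⟨i, hi, rfl⟩
        exact ⟨e.symm ⟨i, hi⟩, by simp⟩
    rw [h5]
    exact q.2
  rw [Algebra.adjoin_range_eq_range_aeval] at hq
  obtain ⟨P, hP⟩ := hq
  have hP0 : P ≠ 0 := by
    rintro rfl
    apply hq0
    apply Subtype.ext
    rw [← hP]
    simp
  obtain ⟨g, hg⟩ := hdvd
  have hq' : (algebraMap (Algebra.adjoin F (T '' (s : Set (Fin p)))) (MvPolynomial (Fin m) F)) q =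
      (q : MvPolynomial (Fin m) F) := rfl
  rw [hq'] at hg
  have h6 : φ (q : MvPolynomial (Fin m) F) = 0 := by
    rw [hg, map_mul, hzero, zero_mul]
  rw [← hP] at h6
  have h7 : MvPolynomial.aeval (fun j : Fin s.card => φ (T (e j))) P = 0 := by
    rw [← h6]
    change _ = φ ((MvPolynomial.aeval fun j : Fin s.card => T (e j)) P)
    rw [← AlgHom.comp_apply, MvPolynomial.comp_aeval]
  exact hP0 ((injective_iff_map_eq_zero _).1 hind P h7)

/-- A polynomial without monomials in few variables vanishes on few variables. -/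
theorem resS_eq_zero {F : Type u} [Field F] {m r : ℕ} (f : MvPolynomial (Fin m) F)
    (hf : II r (f : MvPowerSeries (Fin m) F)) (S : Finset (Fin m)) (hS : S.card ≤ r) :
    resS S f = 0 := by
  classical
  rw [resS, aeval_def, eval₂_eq]
  refine Finset.sum_eq_zero fun d hd => ?_
  by_cases h : d.support ⊆ S
  · exfalso
    rw [mem_support_iff] at hd
    apply hd
    rw [← MvPolynomial.coeff_coe]
    exact hf d ((Finset.card_le_card h).trans hS)
  · obtain ⟨i, hi, hiS⟩ := Finset.not_subset.1 h
    have h1 : ∏ i ∈ d.support, (if i ∈ S then (X i : MvPolynomial (Fin m) F) else 0) ^ d i = 0 := by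
      refine Finset.prod_eq_zero hi ?_
      rw [if_neg hiS, zero_pow (Finsupp.mem_support_iff.1 hi)]
    rw [h1, mul_zero]

theorem stQ (hP : StP.{u}) (hD : StD.{u}) (hL : StL.{u}) : StQ.{u} := by
  classical
  intro F _ _ m w c r p A hA hr h hh hgen
  by_contra h0
  let Q : Multiset (MvPolynomial (Fin m) F) :=
    (univ : Finset ((a : Fin p) × Fin (A a).p)).val.map fun x => ((A x.1).B x.2).det
  have hQ : ∀ P ∈ Q, P ≠ 0 ∧ P.vars.card ≤ w := by
    intro P hP
    obtain ⟨x, _, rfl⟩ := Multiset.mem_map.1 hP
    obtain ⟨h1, S, hS, hB⟩ := (hA x.1).1 x.2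
    exact ⟨h1, (Finset.card_le_card (vars_det S _ hB)).trans hS⟩
  obtain ⟨u, hu, hI⟩ := hL F m w (rp w c r) _ Q hQ hgen
  have hc : ∀ a i, constantCoeff (((A a).sh u).B i).det ≠ 0 := by
    intro a i
    intro h
    refine hu _ (Multiset.mem_map.2 ⟨⟨a, i⟩, Finset.mem_univ _, rfl⟩) ?_
    change eval u ((A a).B i).det = 0
    rw [← constantCoeff_shift, ← det_B_sh u (A a) i]
    exact h
  have hh' : shift u h ∈ Algebra.adjoin F (Set.range fun a => ((A a).sh u).mat.det) := by
    have h1 : (Set.range fun a => ((A a).sh u).mat.det) =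
        shift u '' (Set.range fun a => (A a).mat.det) := by
      rw [← Set.range_comp]
      exact congrArg Set.range (funext fun a => det_mat_sh u (A a))
    rw [h1, ← AlgHom.map_adjoin]
    exact Subalgebra.mem_map.2 ⟨h, hh, rfl⟩
  have hh0 : shift u h ≠ 0 := fun h1 => h0 (shift_injective u (by rw [h1, map_zero]))
  obtain ⟨s, hs, e, he, hkeep⟩ := keep (fun a => ((A a).sh u).mat.det) (shift u h) hh' hh0
  have hsr : s.card ≤ r := by
    apply hr s
    have h1 : AlgebraicIndependent F (fun a : s => shift u (A a).mat.det) := by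
      have h2 : (fun a : s => ((A a).sh u).mat.det) = fun a : s => shift u (A a).mat.det :=
        funext fun a => det_mat_sh u (A a)
      rw [← h2]; exact hs
    exact (AlgHom.algebraicIndependent_iff (shift u) (shift_injective u)).1 h1
  obtain ⟨S, hS, hind⟩ := hP F m s.card w (c * (w + 2)) (fun j => ((A (e j)).sh u).mat.det)
    (fun j => ∏ i, (((A (e j)).sh u).B i).det)
    (fun j => (hD F m c w _ (Few_sh u _ (hA (e j))) (hc (e j))).1)
    (fun j => (hD F m c w _ (Few_sh u _ (hA (e j))) (hc (e j))).2.1)
    (fun j => (hD F m c w _ (Few_sh u _ (hA (e j))) (hc (e j))).2.2) he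
  refine hkeep (resS S) hind (resS_eq_zero _ hI S (hS.trans ?_))
  exact Nat.mul_le_mul_right _ hsr

end Pool.Agent.Lib.MP_64d474_lc.FV
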